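import Mathlib
import Pool.Agent.HopfPinch.AnS1

set_option autoImplicit false

open Set Metric Filter Topology MeasureTheory Complex

namespace Pool.Agent.H93R3

/-- the half plane of parameters -/
def HP : Set ℂ := {w | -(3 / 8 : ℝ) < w.re}

lemma isOpen_HP : IsOpen HP := isOpen_lt continuous_const Complex.continuous_re

/-- Functions of `(w,x)`, `Re w > -3/8`, `‖x‖ ≤ 1/2`, used below. -/
structure Nice (φ : ℂ → ℂ → ℂ) (M : ℝ) : Prop where
  bdd : ∀ w ∈ HP, ∀ x ∈ closedBall (0 : ℂ) (1 / 2), ‖φ w x‖ ≤ M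
  dw : ∀ x ∈ closedBall (0 : ℂ) (1 / 2), DifferentiableOn ℂ (fun w => φ w x) HP
  dx : ∀ w ∈ HP, ∃ U : Set ℂ, IsOpen U ∧ closedBall (0 : ℂ) (1 / 2) ⊆ U ∧
    DifferentiableOn ℂ (fun x => φ w x) U

/-- the Taylor derivatives in `x` at `0` -/
noncomputable def T (j : ℕ) (φ : ℂ → ℂ → ℂ) (w : ℂ) : ℂ := iteratedDeriv j (fun x => φ w x) 0

lemma Nice.M_nonneg {φ : ℂ → ℂ → ℂ} {M : ℝ} (h : Nice φ M) : 0 ≤ M :=
  (norm_nonneg _).trans (h.bdd 0 (by simp [HP]) 0 (by simp))

lemma Nice.diffContOnCl {φ : ℂ → ℂ → ℂ} {M : ℝ} (h : Nice φ M) {w : ℂ} (hw : w ∈ HP) :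
    DiffContOnCl ℂ (fun x => φ w x) (ball 0 (1 / 2)) := by
  obtain ⟨U, hU, h1, h2⟩ := h.dx w hw
  refine DifferentiableOn.diffContOnCl ?_
  rw [closure_ball _ (by norm_num)]
  exact h2.mono h1

lemma Nice.contDiffAt {φ : ℂ → ℂ → ℂ} {M : ℝ} (h : Nice φ M) {w : ℂ} (hw : w ∈ HP) (j : ℕ) :
    ContDiffAt ℂ j (fun x => φ w x) 0 := by
  obtain ⟨U, hU, h1, h2⟩ := h.dx w hw
  have : AnalyticAt ℂ (fun x => φ w x) 0 := h2.analyticAt (hU.mem_nhds (h1 (by simp)))
  exact this.contDiffAt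

lemma Nice.norm_T_le {φ : ℂ → ℂ → ℂ} {M : ℝ} (h : Nice φ M) {w : ℂ} (hw : w ∈ HP) (j : ℕ) :
    ‖T j φ w‖ ≤ j.factorial * 2 ^ j * M := by
  have := Complex.norm_iteratedDeriv_le_of_forall_mem_sphere_norm_le (F := ℂ) (c := 0) (R := 1 / 2)
    (C := M) j (by norm_num) (h.diffContOnCl hw)
    (fun z hz => h.bdd w hw z (sphere_subset_closedBall hz))
  refine this.trans (le_of_eq ?_)
  rw [one_div, inv_pow]
  field_simp

lemma Nice.T_diff {φ : ℂ → ℂ → ℂ} {M : ℝ} (h : Nice φ M) (j : ℕ) :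
    DifferentiableOn ℂ (T j φ) HP := by
  have hrep : ∀ w ∈ HP, T j φ w = (2 * Real.pi * I / j.factorial)⁻¹ *
      ∫ θ in Ioc (0 : ℝ) (2 * Real.pi), deriv (circleMap 0 (1 / 2)) θ *
        ((1 / (circleMap 0 (1 / 2) θ - 0) ^ (j + 1)) * φ w (circleMap 0 (1 / 2) θ)) := by
    intro w hw
    have h1 := (h.diffContOnCl hw).circleIntegral_one_div_sub_center_pow_smul (by norm_num) j
    rw [circleIntegral, intervalIntegral.integral_of_le (by positivity)] at h1
    simp only [smul_eq_mul] at h1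
    rw [h1, T]
    have h2 : (2 * Real.pi * I / j.factorial : ℂ) ≠ 0 := by
      simp [Real.pi_ne_zero, Nat.factorial_ne_zero]
    rw [inv_mul_cancel_left₀ h2]
  have hcs : ∀ θ, circleMap (0 : ℂ) (1 / 2) θ ∈ sphere (0 : ℂ) (1 / 2) := fun θ =>
    circleMap_mem_sphere _ (by norm_num) θ
  have hcm : ∀ θ, circleMap (0 : ℂ) (1 / 2) θ ∈ closedBall (0 : ℂ) (1 / 2) := fun θ =>
    sphere_subset_closedBall (hcs θ)
  have hne : ∀ θ, circleMap (0 : ℂ) (1 / 2) θ ≠ 0 := by
    intro θ h0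
    have := hcs θ
    rw [h0] at this
    simp at this
  have hn : ∀ θ, ‖circleMap (0 : ℂ) (1 / 2) θ‖ = 1 / 2 := fun θ => by simpa using hcs θ
  have hint : DifferentiableOn ℂ (fun w => ∫ θ in Ioc (0 : ℝ) (2 * Real.pi),
      deriv (circleMap 0 (1 / 2)) θ *
        ((1 / (circleMap 0 (1 / 2) θ - 0) ^ (j + 1)) * φ w (circleMap 0 (1 / 2) θ))) HP := by
    refine Pool.Agent.HP.differentiableOn_integral (X := ℂ) (E := ℂ) _ _ HP isOpen_HP ?_ ?_
      (fun _ => 1 / 2 * (2 ^ (j + 1) * M)) ?_ ?_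
    · intro w hw
      obtain ⟨U, hU, hU1, hU2⟩ := h.dx w hw
      apply Continuous.aestronglyMeasurable
      have hc1 : Continuous (fun θ => φ w (circleMap 0 (1 / 2) θ)) := by
        rw [continuous_iff_continuousAt]
        intro θ
        have h4 : ContinuousAt (fun x => φ w x) (circleMap 0 (1 / 2) θ) :=
          (hU2.differentiableAt (hU.mem_nhds (hU1 (hcm θ)))).continuousAt
        exact ContinuousAt.comp (f := fun θ => circleMap 0 (1 / 2) θ) (g := fun x => φ w x) h4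
          (continuous_circleMap 0 (1 / 2)).continuousAt
      have hc2 : Continuous (fun θ => 1 / (circleMap (0 : ℂ) (1 / 2) θ - 0) ^ (j + 1)) := by
        refine Continuous.div continuous_const
          (((continuous_circleMap 0 (1 / 2)).sub continuous_const).pow _) (fun θ => ?_)
        rw [sub_zero]
        exact pow_ne_zero _ (hne θ)
      have hc3 : Continuous (fun θ => deriv (circleMap (0 : ℂ) (1 / 2)) θ) := by
        simp only [deriv_circleMap]
        exact (continuous_circleMap 0 _).mul continuous_const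
      exact hc3.mul (hc2.mul hc1)
    · intro θ
      exact ((h.dw _ (hcm θ)).const_mul _).const_mul _
    · exact integrableOn_const measure_Ioc_lt_top.ne enorm_ne_top
    · intro θ w hw
      rw [norm_mul, norm_mul, sub_zero, norm_div, norm_one, norm_pow, hn]
      have h3 : ‖deriv (circleMap (0 : ℂ) (1 / 2)) θ‖ = 1 / 2 := by
        simp [deriv_circleMap]
      rw [h3]
      have h5 := h.bdd w hw _ (hcm θ)
      have h6 : (1 : ℝ) / (1 / 2) ^ (j + 1) = 2 ^ (j + 1) := by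
        rw [one_div, one_div, inv_pow, inv_inv]
      rw [h6]
      gcongr
  exact (hint.const_mul _).congr hrep

/-- Phragmen-Lindelof -/
lemma pl (F : ℂ → ℂ) (c M : ℝ) (hF : DifferentiableOn ℂ F HP)
    (hb : ∀ w : ℂ, 0 ≤ w.re → ‖F w‖ ≤ M) (hr : ∃ C : ℝ, ∀ x : ℝ, 0 ≤ x → ‖F x‖ ≤ C * Real.exp (-(c * x)))
    (hc : 0 ≤ c) {w : ℂ} (hw : 0 ≤ w.re) : ‖Complex.exp (c * w) * F w‖ ≤ M := by
  have hsub : closure {z : ℂ | 0 < z.re} ⊆ HP := by
    rw [Complex.closure_setOfPred_lt_re]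
    intro z hz
    simp only [mem_setOf_eq] at hz
    simp only [HP, mem_setOf_eq]
    linarith
  have hM : 0 ≤ M := (norm_nonneg _).trans (hb 0 (by simp))
  refine PhragmenLindelof.right_half_plane_of_bounded_on_real (f := fun w => Complex.exp (c * w) * F w)
    ?_ ?_ ?_ ?_ hw
  · refine DifferentiableOn.diffContOnCl ?_
    refine DifferentiableOn.mul ?_ (hF.mono hsub)
    fun_prop
  · refine ⟨1, by norm_num, c, ?_⟩
    apply Asymptotics.IsBigO.of_bound M
    rw [eventually_inf_principal]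
    refine Eventually.of_forall (fun z hz => ?_)
    simp only [mem_setOf_eq] at hz
    rw [norm_mul, Complex.norm_exp, Real.rpow_one, Real.norm_eq_abs, abs_of_pos (Real.exp_pos _),
      mul_comm M]
    have h1 : ((c : ℂ) * z).re = c * z.re := by simp
    rw [h1]
    have h2 : z.re ≤ ‖z‖ := Complex.re_le_norm z
    have h3 := hb z hz.le
    gcongr
  · obtain ⟨C, hC⟩ := hr
    refine ⟨C, ?_⟩
    rw [eventually_map]
    filter_upwards [eventually_ge_atTop 0] with x hx
    rw [norm_mul, Complex.norm_exp]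
    have h1 : ((c : ℂ) * (x : ℂ)).re = c * x := by simp
    rw [h1]
    have h2 := hC x hx
    calc Real.exp (c * x) * ‖F x‖ ≤ Real.exp (c * x) * (C * Real.exp (-(c * x))) := by gcongr
      _ = C * (Real.exp (c * x) * Real.exp (-(c * x))) := by ring
      _ = C := by rw [← Real.exp_add]; simp
  · intro x
    rw [norm_mul, Complex.norm_exp]
    have h1 : ((c : ℂ) * ((x : ℂ) * I)).re = 0 := by simp
    rw [h1, Real.exp_zero, one_mul]
    exact hb _ (by simp)

end Pool.Agent.H93R3
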