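import Mathlib
import Pool.Agent.H93R3.BallA

set_option autoImplicit false

open Set Metric Filter Topology MeasureTheory Complex

namespace Pool.Agent.H93R3

/-- exponential decay (rate `a`) on the positive reals -/
def Dec (a : ℝ) (F : ℝ → ℂ) : Prop := ∃ C : ℝ, ∀ x : ℝ, 0 ≤ x → ‖F x‖ ≤ C * Real.exp (-(a * x))

lemma Dec.zero (a : ℝ) : Dec a (fun _ => 0) := ⟨0, fun x _ => by simp⟩

lemma Dec.nonneg {a : ℝ} {F : ℝ → ℂ} (h : Dec a F) :
    ∃ C : ℝ, 0 ≤ C ∧ ∀ x : ℝ, 0 ≤ x → ‖F x‖ ≤ C * Real.exp (-(a * x)) := by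
  obtain ⟨C, hC⟩ := h
  refine ⟨C, ?_, hC⟩
  have := (norm_nonneg _).trans (hC 0 le_rfl)
  simpa using this

lemma Dec.add {a : ℝ} {F G : ℝ → ℂ} (hF : Dec a F) (hG : Dec a G) :
    Dec a (fun x => F x + G x) := by
  obtain ⟨C, hC⟩ := hF
  obtain ⟨D, hD⟩ := hG
  refine ⟨C + D, fun x hx => (norm_add_le _ _).trans ?_⟩
  rw [add_mul]
  exact add_le_add (hC x hx) (hD x hx)

lemma Dec.sum {ι : Type*} (s : Finset ι) {a : ℝ} {F : ι → ℝ → ℂ} (h : ∀ i ∈ s, Dec a (F i)) :
    Dec a (fun x => ∑ i ∈ s, F i x) := by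
  classical
  induction s using Finset.induction_on with
  | empty => simpa using Dec.zero a
  | insert i s hi ih =>
    have h1 := (h i (Finset.mem_insert_self _ _)).add
      (ih (fun k hk => h k (Finset.mem_insert_of_mem hk)))
    simpa [Finset.sum_insert hi] using h1

lemma Dec.mul {a b : ℝ} {F G : ℝ → ℂ} (hF : Dec a F) (hG : Dec b G) :
    Dec (a + b) (fun x => F x * G x) := by
  obtain ⟨C, hC0, hC⟩ := hF.nonneg
  obtain ⟨D, hD0, hD⟩ := hG.nonneg
  refine ⟨C * D, fun x hx => ?_⟩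
  rw [norm_mul]
  calc ‖F x‖ * ‖G x‖ ≤ (C * Real.exp (-(a * x))) * (D * Real.exp (-(b * x))) := by
        gcongr
        · exact hC x hx
        · exact hD x hx
    _ = C * D * (Real.exp (-(a * x)) * Real.exp (-(b * x))) := by ring
    _ = _ := by rw [← Real.exp_add]; congr 2; ring

lemma Dec.mono {a b : ℝ} {F : ℝ → ℂ} (h : Dec a F) (hab : b ≤ a) : Dec b F := by
  obtain ⟨C, hC0, hC⟩ := h.nonneg
  refine ⟨C, fun x hx => (hC x hx).trans ?_⟩
  have : b * x ≤ a * x := by gcongr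
  gcongr

lemma Dec.exp (a : ℝ) : Dec (-a) (fun x : ℝ => Complex.exp (a * x)) := by
  refine ⟨1, fun x _ => ?_⟩
  rw [Complex.norm_exp]
  have : ((a : ℂ) * (x : ℂ)).re = a * x := by simp
  rw [this, one_mul]
  simp

lemma Dec.const (c : ℂ) : Dec 0 (fun _ : ℝ => c) := ⟨‖c‖, fun x _ => by simp⟩

lemma Dec.congr {a : ℝ} {F G : ℝ → ℂ} (h : Dec a F) (hFG : ∀ x, 0 ≤ x → G x = F x) : Dec a G := by
  obtain ⟨C, hC⟩ := h
  exact ⟨C, fun x hx => by rw [hFG x hx]; exact hC x hx⟩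

lemma Dec.prod_sub {ι : Type*} (s : Finset ι) {d : ℝ} {A B : ι → ℝ → ℂ}
    (hA : ∀ i ∈ s, Dec 0 (A i)) (hB : ∀ i ∈ s, Dec 0 (B i))
    (hAB : ∀ i ∈ s, Dec d (fun x => A i x - B i x)) :
    Dec d (fun x => ∏ i ∈ s, A i x - ∏ i ∈ s, B i x) ∧ Dec 0 (fun x => ∏ i ∈ s, A i x) ∧
      Dec 0 (fun x => ∏ i ∈ s, B i x) := by
  classical
  induction s using Finset.induction_on with
  | empty =>
    refine ⟨?_, ?_, ?_⟩
    · simpa using Dec.zero d
    · simpa using Dec.const 1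
    · simpa using Dec.const 1
  | insert i s hi ih =>
    obtain ⟨h1, h2, h3⟩ := ih (fun k hk => hA k (Finset.mem_insert_of_mem hk))
      (fun k hk => hB k (Finset.mem_insert_of_mem hk))
      (fun k hk => hAB k (Finset.mem_insert_of_mem hk))
    have ha := hA i (Finset.mem_insert_self _ _)
    have hb := hB i (Finset.mem_insert_self _ _)
    have hab := hAB i (Finset.mem_insert_self _ _)
    simp only [Finset.prod_insert hi]
    refine ⟨?_, ?_, ?_⟩
    · have h4 := (hab.mul h2).add ((hb.mul h1).mono (b := d + 0) (by simp))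
      rw [add_zero] at h4
      refine h4.congr (fun x _ => ?_)
      ring
    · simpa using ha.mul h2
    · simpa using hb.mul h3

lemma Dec.det_sub {k : ℕ} {d : ℝ} {A B : Fin k → Fin k → ℝ → ℂ}
    (hA : ∀ i j, Dec 0 (A i j)) (hB : ∀ i j, Dec 0 (B i j))
    (hAB : ∀ i j, Dec d (fun x => A i j x - B i j x)) :
    Dec d (fun x => (Matrix.of fun i j => A i j x).det - (Matrix.of fun i j => B i j x).det) := by
  have h1 : ∀ σ ∈ (Finset.univ : Finset (Equiv.Perm (Fin k))),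
      Dec d (fun x => ((Equiv.Perm.sign σ : ℤ) : ℂ) *
        (∏ i, A (σ i) i x - ∏ i, B (σ i) i x)) := by
    intro σ _
    have h2 := (Dec.prod_sub (s := (Finset.univ : Finset (Fin k))) (d := d)
      (A := fun i => A (σ i) i) (B := fun i => B (σ i) i)
      (fun i _ => hA _ _) (fun i _ => hB _ _) (fun i _ => hAB _ _)).1
    have h3 := (Dec.const ((Equiv.Perm.sign σ : ℤ) : ℂ)).mul h2
    rw [zero_add] at h3
    exact h3
  refine (Dec.sum _ h1).congr (fun x _ => ?_)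
  rw [Matrix.det_apply', Matrix.det_apply', ← Finset.sum_sub_distrib]
  refine Finset.sum_congr rfl (fun σ _ => ?_)
  simp only [Matrix.of_apply]
  ring

lemma det_mul_eq_zero {m : ℕ} (G : Matrix (Fin (m + 1)) (Fin m) ℂ)
    (H : Matrix (Fin m) (Fin (m + 1)) ℂ) : (G * H).det = 0 := by
  by_contra hne
  have h1 : IsUnit (G * H) := (Matrix.isUnit_iff_isUnit_det _).2 (isUnit_iff_ne_zero.2 hne)
  have h2 := Matrix.rank_of_isUnit _ h1
  have h3 := (Matrix.rank_mul_le_left G H).trans (Matrix.rank_le_width G)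
  rw [h2, Fintype.card_fin] at h3
  omega

/-- the rates -/
noncomputable def rate (j : ℕ) : ℝ := 1 / ((j : ℝ) + 1)

lemma rate_nonneg (j : ℕ) : 0 ≤ rate j := by unfold rate; positivity

lemma rate_anti {i j : ℕ} (h : i ≤ j) : rate j ≤ rate i := by
  unfold rate
  have : (i : ℝ) ≤ j := by exact_mod_cast h
  gcongr

lemma rate_gap {m i j : ℕ} (h : i < j) (hj : j ≤ m) : 1 / ((m : ℝ) + 1) ^ 2 ≤ rate i - rate j := by
  unfold rate
  have h1 : (i : ℝ) + 1 ≤ j := by exact_mod_cast h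
  have h2 : (j : ℝ) ≤ m := by exact_mod_cast hj
  have h0 : (0 : ℝ) ≤ i := Nat.cast_nonneg i
  rw [div_sub_div _ _ (by positivity) (by positivity)]
  rw [div_le_div_iff₀ (by positivity) (by positivity)]
  nlinarith

lemma T_mul {φ ψ : ℂ → ℂ → ℂ} {M N : ℝ} (hφ : Nice φ M) (hψ : Nice ψ N) {w : ℂ} (hw : w ∈ HP)
    (j : ℕ) : T j (fun w x => φ w x * ψ w x) w =
      ∑ i ∈ Finset.range (j + 1), (j.choose i : ℂ) * T i φ w * T (j - i) ψ w := by
  have := iteratedDeriv_mul (n := j) (hφ.contDiffAt hw j) (hψ.contDiffAt hw j)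
  exact this

lemma T_sum {ι : Type*} (s : Finset ι) (φ : ι → ℂ → ℂ → ℂ) (M : ι → ℝ) (hφ : ∀ i ∈ s, Nice (φ i) (M i))
    {w : ℂ} (hw : w ∈ HP) (j : ℕ) :
    T j (fun w x => ∑ i ∈ s, φ i w x) w = ∑ i ∈ s, T j (φ i) w := by
  have := iteratedDeriv_fun_sum (n := j) (I := s) (f := fun i x => φ i w x) (x := 0)
    (fun i hi => (hφ i hi).contDiffAt hw j)
  exact this

lemma Nice.mul {φ ψ : ℂ → ℂ → ℂ} {M N : ℝ} (hφ : Nice φ M) (hψ : Nice ψ N) :
    Nice (fun w x => φ w x * ψ w x) (M * N) := by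
  refine ⟨fun w hw x hx => ?_, fun x hx => (hφ.dw x hx).mul (hψ.dw x hx), fun w hw => ?_⟩
  · rw [norm_mul]
    exact mul_le_mul (hφ.bdd w hw x hx) (hψ.bdd w hw x hx) (norm_nonneg _) hφ.M_nonneg
  · obtain ⟨U, hU, h1, h2⟩ := hφ.dx w hw
    obtain ⟨V, hV, h3, h4⟩ := hψ.dx w hw
    exact ⟨U ∩ V, hU.inter hV, fun x hx => ⟨h1 hx, h3 hx⟩,
      (h2.mono inter_subset_left).mul (h4.mono inter_subset_right)⟩

lemma ofReal_mem_HP {x : ℝ} (hx : 0 ≤ x) : (x : ℂ) ∈ HP := by
  simp only [HP, mem_ofPred_eq, Complex.ofReal_re]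
  linarith

lemma mem_HP {w : ℂ} (hw : 0 ≤ w.re) : w ∈ HP := by
  simp only [HP, mem_ofPred_eq]
  linarith

lemma Nice.T_dec {φ : ℂ → ℂ → ℂ} {M : ℝ} (h : Nice φ M) (j : ℕ) : Dec 0 (fun x : ℝ => T j φ x) :=
  ⟨j.factorial * 2 ^ j * M, fun x hx => by simpa using h.norm_T_le (ofReal_mem_HP hx) j⟩

/-- the improved bound given by Phragmen-Lindelof -/
lemma T_pl {φ : ℂ → ℂ → ℂ} {M : ℝ} (h : Nice φ M) {j : ℕ} (hd : Dec (rate j) (fun x : ℝ => T j φ x))
    {w : ℂ} (hw : 0 ≤ w.re) : ‖Complex.exp (rate j * w) * T j φ w‖ ≤ j.factorial * 2 ^ j * M :=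
  pl (T j φ) (rate j) _ (h.T_diff j) (fun w hw => h.norm_T_le (mem_HP hw) j) hd (rate_nonneg j) hw

theorem core (m : ℕ) (g : Fin m → ℂ → ℂ → ℂ) (Mg : Fin m → ℝ) (hg : ∀ l, Nice (g l) (Mg l))
    (hgd : ∀ l j, Dec (rate j) (fun x : ℝ => T j (g l) x))
    (h : Fin (m + 1) → Fin m → ℂ → ℂ → ℂ) (Mh : Fin (m + 1) → Fin m → ℝ)
    (hh : ∀ j l, Nice (h j l) (Mh j l))
    (p : Fin (m + 1) → ℂ → ℂ → ℂ) (K : ℝ) (hp : ∀ j, Nice (p j) K)
    (hpd : ∀ j i, Dec (rate i) (fun x : ℝ => T i (p j) x))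
    (hpe : ∀ j, ∀ w ∈ HP, ∀ i, T i (p j) w = ∑ l, T i (fun w x => h j l w x * g l w x) w)
    (x : ℝ) (hx : 0 ≤ x) :
    ‖(Matrix.of fun i j : Fin (m + 1) => Complex.exp (rate i * x) * T i (p j) x).det‖ ≤
      (m + 1).factorial * (m.factorial * 2 ^ m * K) ^ (m + 1) *
        Real.exp (-(1 / ((m : ℝ) + 1) ^ 2 * x)) := by
  set δ : ℝ := 1 / ((m : ℝ) + 1) ^ 2 with hδ
  set F : ℂ → ℂ := fun w =>
    (Matrix.of fun i j : Fin (m + 1) => Complex.exp (rate i * w) * T i (p j) w).det with hF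
  have hK : 0 ≤ K := (hp 0).M_nonneg
  have hFd : DifferentiableOn ℂ F HP := by
    have : F = fun w => ∑ σ : Equiv.Perm (Fin (m + 1)), ((Equiv.Perm.sign σ : ℤ) : ℂ) *
        ∏ i : Fin (m + 1), (Complex.exp (rate (σ i : Fin (m+1)) * w) * T (σ i : Fin (m + 1)) (p i) w) := by
      funext w
      simp only [hF, Matrix.det_apply', Matrix.of_apply]
    rw [this]
    refine DifferentiableOn.fun_sum (fun σ _ => ?_)
    refine DifferentiableOn.const_mul ?_ _
    refine DifferentiableOn.fun_finsetProd (fun i _ => ?_)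
    refine DifferentiableOn.mul ?_ ((hp i).T_diff _)
    fun_prop
  have hFb : ∀ w : ℂ, 0 ≤ w.re → ‖F w‖ ≤
      (m + 1).factorial * (m.factorial * 2 ^ m * K) ^ (m + 1) := by
    intro w hw
    have h1 := Matrix.det_le (A := Matrix.of fun i j : Fin (m + 1) =>
      Complex.exp (rate i * w) * T i (p j) w) (abv := NormedField.toAbsoluteValue ℂ)
      (x := m.factorial * 2 ^ m * K) (fun i j => ?_)
    · rw [Fintype.card_fin, nsmul_eq_mul] at h1
      exact h1
    · simp only [NormedField.toAbsoluteValue, AbsoluteValue.coe_mk, MulHom.coe_mk, Matrix.of_apply]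
      refine (T_pl (hp j) (hpd j i) hw).trans ?_
      have hi : (i : ℕ) ≤ m := by omega
      have h2 : ((i : ℕ).factorial : ℝ) ≤ m.factorial := by exact_mod_cast Nat.factorial_le hi
      have h3 : (2 : ℝ) ^ (i : ℕ) ≤ 2 ^ m := pow_le_pow_right₀ (by norm_num) hi
      gcongr
  have hFr : Dec δ (fun x : ℝ => F x) := by
    have hA : ∀ i j : Fin (m + 1), Dec 0 (fun x : ℝ => Complex.exp (rate i * x) * T i (p j) x) := by
      intro i j
      simpa using (Dec.exp (rate i)).mul (hpd j i)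
    have hB : ∀ i j : Fin (m + 1), Dec 0 (fun x : ℝ => ∑ l : Fin m,
        (Complex.exp (rate i * x) * T i (g l) x) * T 0 (h j l) x) := by
      intro i j
      refine Dec.sum _ (fun l _ => ?_)
      have h1 := ((Dec.exp (rate i)).mul (hgd l i)).mul ((hh j l).T_dec 0)
      simpa using h1
    have hAB : ∀ i j : Fin (m + 1), Dec δ (fun x : ℝ =>
        Complex.exp (rate i * x) * T i (p j) x - ∑ l : Fin m,
          (Complex.exp (rate i * x) * T i (g l) x) * T 0 (h j l) x) := by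
      intro i j
      have h1 : ∀ l ∈ (Finset.univ : Finset (Fin m)), Dec δ (fun x : ℝ =>
          ∑ k ∈ Finset.range (i : ℕ), Complex.exp (rate i * x) * (((i : ℕ).choose (k + 1) : ℂ) *
            T (k + 1) (h j l) x * T (i - (k + 1)) (g l) x)) := by
        intro l _
        refine Dec.sum _ (fun k hk => ?_)
        rw [Finset.mem_range] at hk
        have h2 := (Dec.exp (rate i)).mul (((Dec.const ((i : ℕ).choose (k + 1) : ℂ)).mul
          ((hh j l).T_dec (k + 1))).mul (hgd l (i - (k + 1))))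
        refine h2.mono ?_
        have h3 := rate_gap (m := m) (i := i - (k + 1)) (j := i) (by omega) (by omega)
        linarith
      refine (Dec.sum _ h1).congr (fun x hx => ?_)
      rw [hpe j x (ofReal_mem_HP hx), Finset.mul_sum, ← Finset.sum_sub_distrib]
      refine Finset.sum_congr rfl (fun l _ => ?_)
      rw [T_mul (hh j l) (hg l) (ofReal_mem_HP hx), Finset.sum_range_succ', mul_add,
        Finset.mul_sum]
      simp only [Nat.choose_zero_right, Nat.cast_one, one_mul, Nat.sub_zero]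
      ring
    have h4 := Dec.det_sub hA hB hAB
    refine h4.congr (fun x _ => ?_)
    have h5 : (Matrix.of fun i j : Fin (m + 1) => ∑ l : Fin m,
        (Complex.exp (rate i * x) * T i (g l) x) * T 0 (h j l) x) =
        (Matrix.of fun (i : Fin (m + 1)) (l : Fin m) => Complex.exp (rate i * x) * T i (g l) x) *
          (Matrix.of fun (l : Fin m) (j : Fin (m + 1)) => T 0 (h j l) x) := by
      ext i j
      simp [Matrix.mul_apply]
    rw [h5, det_mul_eq_zero, sub_zero]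
  have h6 := pl F δ _ hFd hFb hFr (by positivity) (w := x) (by simpa using hx)
  rw [norm_mul, Complex.norm_exp] at h6
  have h7 : ((δ : ℂ) * (x : ℂ)).re = δ * x := by simp
  rw [h7] at h6
  calc ‖F x‖ = (Real.exp (δ * x) * ‖F x‖) * Real.exp (-(δ * x)) := by
        rw [mul_comm (Real.exp (δ * x)), mul_assoc, ← Real.exp_add]
        simp
    _ ≤ _ := by gcongr

end Pool.Agent.H93R3
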