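import Mathlib
import Pool.Agent.H93R3.BallB

set_option autoImplicit false

open Set Metric Filter Topology MeasureTheory Complex

namespace Pool.Agent.H93R3

section ball

variable {n : ℕ}

/-- the first coordinate index -/
def i0 (hn : 2 ≤ n) : Fin n := ⟨0, by omega⟩
/-- the second coordinate index -/
def i1 (hn : 2 ≤ n) : Fin n := ⟨1, by omega⟩

lemma i01 (hn : 2 ≤ n) : i0 hn ≠ i1 hn := by simp [i0, i1]

/-- the points of the ball used to test the functions -/
noncomputable def P (hn : 2 ≤ n) (w x : ℂ) : EuclideanSpace ℂ (Fin n) :=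
  EuclideanSpace.single (i0 hn) (w / (w + 1)) + EuclideanSpace.single (i1 hn) (x / (w + 1))

lemma single_smul (i : Fin n) (a : ℂ) :
    EuclideanSpace.single i a = a • EuclideanSpace.single i (1 : ℂ) := by
  ext k
  by_cases h : k = i
  · subst h; simp
  · simp [h]

lemma P_apply0 (hn : 2 ≤ n) (w x : ℂ) : P hn w x (i0 hn) = w / (w + 1) := by
  simp [P, (i01 hn)]

lemma P_apply1 (hn : 2 ≤ n) (w x : ℂ) : P hn w x (i1 hn) = x / (w + 1) := by
  simp [P, (i01 hn).symm]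

lemma norm_P_sq (hn : 2 ≤ n) (w x : ℂ) : ‖P hn w x‖ ^ 2 = ‖w / (w + 1)‖ ^ 2 + ‖x / (w + 1)‖ ^ 2 := by
  rw [P, sq, norm_add_sq_eq_norm_sq_add_norm_sq_of_inner_eq_zero (𝕜 := ℂ)]
  · rw [EuclideanSpace.norm_single, EuclideanSpace.norm_single]
    ring
  · simp [EuclideanSpace.inner_single_left, (i01 hn)]

lemma w1_ne {w : ℂ} (hw : w ∈ HP) : w + 1 ≠ 0 := by
  intro h
  have h1 : w.re = -1 := by
    have := congrArg Complex.re h
    simp at this
    linarith
  simp only [HP, mem_ofPred_eq] at hw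
  rw [h1] at hw
  norm_num at hw

lemma P_mem (hn : 2 ≤ n) {w x : ℂ} (h : ‖x‖ ^ 2 < 1 + 2 * w.re) : P hn w x ∈ ball (0 : EuclideanSpace ℂ (Fin n)) 1 := by
  have hpos : 0 < ‖w + 1‖ ^ 2 := by
    have : ‖w + 1‖ ^ 2 = ‖w‖ ^ 2 + 2 * w.re + 1 := by
      rw [Complex.sq_norm, Complex.sq_norm, Complex.normSq_apply, Complex.normSq_apply]
      simp
      ring
    rw [this]
    nlinarith [sq_nonneg ‖x‖, sq_nonneg ‖w‖]
  have h2 : ‖w + 1‖ ^ 2 = ‖w‖ ^ 2 + 2 * w.re + 1 := by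
    rw [Complex.sq_norm, Complex.sq_norm, Complex.normSq_apply, Complex.normSq_apply]
    simp
    ring
  have h1 : ‖P hn w x‖ ^ 2 < 1 := by
    rw [norm_P_sq, norm_div, norm_div, div_pow, div_pow, ← add_div, div_lt_one hpos, h2]
    linarith
  rw [mem_ball_zero_iff]
  nlinarith [norm_nonneg (P hn w x)]

lemma small {w x : ℂ} (hw : w ∈ HP) (hx : x ∈ closedBall (0 : ℂ) (1 / 2)) :
    ‖x‖ ^ 2 < 1 + 2 * w.re := by
  rw [mem_closedBall_zero_iff] at hx
  simp only [HP, mem_ofPred_eq] at hw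
  nlinarith [norm_nonneg x]

lemma nice_of (hn : 2 ≤ n) {G : EuclideanSpace ℂ (Fin n) → ℂ} {M : ℝ}
    (hG : DifferentiableOn ℂ G (ball 0 1)) (hM : ∀ z ∈ ball (0 : EuclideanSpace ℂ (Fin n)) 1, ‖G z‖ ≤ M) :
    Nice (fun w x => G (P hn w x)) M := by
  refine ⟨fun w hw x hx => hM _ (P_mem hn (small hw hx)), fun x hx => ?_, fun w hw => ?_⟩
  · refine hG.comp ?_ (fun w hw => P_mem hn (small hw hx))
    intro w hw
    apply DifferentiableAt.differentiableWithinAt
    have h1 : DifferentiableAt ℂ (fun w : ℂ => w / (w + 1)) w :=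
      differentiableAt_id.div (by fun_prop) (w1_ne hw)
    have h2 : DifferentiableAt ℂ (fun w : ℂ => x / (w + 1)) w :=
      (differentiableAt_const _).div (by fun_prop) (w1_ne hw)
    have h3 : (fun w : ℂ => P hn w x) = fun w => (w / (w + 1)) • EuclideanSpace.single (i0 hn) (1 : ℂ) +
        (x / (w + 1)) • EuclideanSpace.single (i1 hn) (1 : ℂ) := by
      funext w
      rw [P, single_smul (i0 hn), single_smul (i1 hn)]
    rw [h3]
    exact (h1.smul_const _).add (h2.smul_const _)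
  · refine ⟨{x | ‖x‖ ^ 2 < 1 + 2 * w.re}, isOpen_lt (by fun_prop) continuous_const,
      fun x hx => small hw hx, ?_⟩
    refine hG.comp ?_ (fun x hx => P_mem hn hx)
    have h3 : P hn w = fun x => EuclideanSpace.single (i0 hn) (w / (w + 1)) +
        (x / (w + 1)) • EuclideanSpace.single (i1 hn) (1 : ℂ) := by
      funext x
      rw [P, single_smul (i1 hn)]
    rw [h3]
    fun_prop

/-- the closed unit ball as a type -/
abbrev CB (n : ℕ) : Type := Metric.closedBall (0 : EuclideanSpace ℂ (Fin n)) 1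

open Classical in
/-- extension by zero of a function on the closed ball -/
noncomputable def ext0 (f : C(CB n, ℂ)) (z : EuclideanSpace ℂ (Fin n)) : ℂ :=
  if h : z ∈ closedBall (0 : EuclideanSpace ℂ (Fin n)) 1 then f ⟨z, h⟩ else 0

lemma ext0_coe (f : C(CB n, ℂ)) (z : CB n) : ext0 f z = f z := by
  simp [ext0]

lemma ext0_mem (f : C(CB n, ℂ)) {z : EuclideanSpace ℂ (Fin n)} (hz : z ∈ closedBall (0 : EuclideanSpace ℂ (Fin n)) 1) :
    ext0 f z = f ⟨z, hz⟩ := by
  rw [ext0, dif_pos hz]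

lemma ext0_norm (f : C(CB n, ℂ)) (z : EuclideanSpace ℂ (Fin n)) : ‖ext0 f z‖ ≤ ‖f‖ := by
  unfold ext0
  split_ifs with h
  · exact f.norm_coe_le_norm _
  · simp

lemma ext0_diff {f : C(CB n, ℂ)} {g : EuclideanSpace ℂ (Fin n) → ℂ} (hg : DifferentiableOn ℂ g (ball 0 1))
    (hfg : ∀ x : CB n, f x = g x) : DifferentiableOn ℂ (ext0 f) (ball 0 1) :=
  hg.congr (fun z hz => by rw [ext0_mem f (ball_subset_closedBall hz), hfg])

/-- the two variable function of `f` -/
noncomputable def Φ (hn : 2 ≤ n) (f : C(CB n, ℂ)) (w x : ℂ) : ℂ := ext0 f (P hn w x)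

lemma Φ_nice (hn : 2 ≤ n) {f : C(CB n, ℂ)} (hf : DifferentiableOn ℂ (ext0 f) (ball 0 1)) : Nice (Φ hn f) ‖f‖ :=
  nice_of hn hf (fun z _ => ext0_norm f z)

lemma ext0_add (f g : C(CB n, ℂ)) (z : EuclideanSpace ℂ (Fin n)) : ext0 (f + g) z = ext0 f z + ext0 g z := by
  unfold ext0
  split_ifs <;> simp

lemma ext0_sub (f g : C(CB n, ℂ)) (z : EuclideanSpace ℂ (Fin n)) : ext0 (f - g) z = ext0 f z - ext0 g z := by
  unfold ext0
  split_ifs <;> simp

lemma ext0_mul (f g : C(CB n, ℂ)) (z : EuclideanSpace ℂ (Fin n)) : ext0 (f * g) z = ext0 f z * ext0 g z := by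
  unfold ext0
  split_ifs <;> simp

lemma ext0_sum {ι : Type*} (s : Finset ι) (f : ι → C(CB n, ℂ)) (z : EuclideanSpace ℂ (Fin n)) :
    ext0 (∑ i ∈ s, f i) z = ∑ i ∈ s, ext0 (f i) z := by
  unfold ext0
  split_ifs <;> simp

end ball

end Pool.Agent.H93R3
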