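import Mathlib
import Pool.Agent.H93R3.BallC

set_option autoImplicit false

open Set Metric Filter Topology MeasureTheory Complex

namespace Pool.Agent.H93R3

variable {n : ℕ}

lemma re_bound {a : ℂ} (ha : ‖a‖ ≤ 1) : -(1 / 2 : ℝ) ≤ (a / (1 - a)).re := by
  by_cases h : a = 1
  · subst h
    norm_num
  have h1 : 0 < Complex.normSq (1 - a) := Complex.normSq_pos.2 (sub_ne_zero.2 (Ne.symm h))
  have h2 : ‖a‖ ^ 2 ≤ 1 := by nlinarith [norm_nonneg a]
  rw [Complex.sq_norm, Complex.normSq_apply] at h2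
  rw [Complex.div_re, ← add_div, le_div_iff₀ h1]
  rw [Complex.normSq_apply]
  simp only [Complex.sub_re, Complex.one_re, Complex.sub_im, Complex.one_im]
  nlinarith

/-- the special elements of the ideal -/
noncomputable def S (hn : 2 ≤ n) (j : ℕ) (z : EuclideanSpace ℂ (Fin n)) : ℂ :=
  z (i1 hn) ^ j * (1 - z (i0 hn)) * Complex.exp (-(rate j * (z (i0 hn) / (1 - z (i0 hn)))))

lemma coord_le {z : EuclideanSpace ℂ (Fin n)} (hz : z ∈ closedBall (0 : EuclideanSpace ℂ (Fin n)) 1)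
    (i : Fin n) : ‖z i‖ ≤ 1 :=
  (PiLp.norm_apply_le z i).trans (mem_closedBall_zero_iff.1 hz)

lemma S_norm (hn : 2 ≤ n) (j : ℕ) {z : EuclideanSpace ℂ (Fin n)}
    (hz : z ∈ closedBall (0 : EuclideanSpace ℂ (Fin n)) 1) :
    ‖S hn j z‖ ≤ ‖1 - z (i0 hn)‖ * Real.exp (rate j / 2) := by
  rw [S, norm_mul, norm_mul, norm_pow, Complex.norm_exp]
  have h1 : ‖z (i1 hn)‖ ^ j ≤ 1 := pow_le_one₀ (norm_nonneg _) (coord_le hz _)
  have h2 : (-(rate j * (z (i0 hn) / (1 - z (i0 hn)))) : ℂ).re ≤ rate j / 2 := by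
    rw [Complex.neg_re, Complex.re_ofReal_mul]
    have := re_bound (coord_le hz (i0 hn))
    nlinarith [rate_nonneg j]
  have h3 : Real.exp ((-(rate j * (z (i0 hn) / (1 - z (i0 hn)))) : ℂ).re) ≤ Real.exp (rate j / 2) :=
    Real.exp_le_exp.2 h2
  calc ‖z (i1 hn)‖ ^ j * ‖1 - z (i0 hn)‖ * Real.exp ((-(rate j * (z (i0 hn) / (1 - z (i0 hn)))) : ℂ).re)
      ≤ 1 * ‖1 - z (i0 hn)‖ * Real.exp (rate j / 2) := by gcongr
    _ = _ := by ring

lemma S_cont (hn : 2 ≤ n) (j : ℕ) : Continuous (fun z : CB n => S hn j z) := by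
  rw [continuous_iff_continuousAt]
  intro a
  by_cases h : (a : EuclideanSpace ℂ (Fin n)) (i0 hn) = 1
  · have h0 : S hn j a = 0 := by rw [S, h]; simp
    rw [ContinuousAt, h0]
    apply squeeze_zero_norm (a := fun z : CB n => ‖1 - (z : EuclideanSpace ℂ (Fin n)) (i0 hn)‖ *
      Real.exp (rate j / 2)) (fun z => S_norm hn j z.2)
    have h1 : Continuous (fun z : CB n => ‖1 - (z : EuclideanSpace ℂ (Fin n)) (i0 hn)‖ *
      Real.exp (rate j / 2)) := by fun_prop
    have h2 := h1.tendsto a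
    rw [h] at h2
    simpa using h2
  · have h1 : (1 - (a : EuclideanSpace ℂ (Fin n)) (i0 hn)) ≠ 0 := sub_ne_zero.2 (Ne.symm h)
    unfold S
    have h2 : ContinuousAt (fun z : CB n => (z : EuclideanSpace ℂ (Fin n)) (i0 hn) /
        (1 - (z : EuclideanSpace ℂ (Fin n)) (i0 hn))) a := by
      apply ContinuousAt.div
      · fun_prop
      · fun_prop
      · exact h1
    have h3 : ContinuousAt (fun z : CB n => (z : EuclideanSpace ℂ (Fin n)) (i1 hn) ^ j *
        (1 - (z : EuclideanSpace ℂ (Fin n)) (i0 hn))) a := by fun_prop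
    exact h3.mul ((h2.const_mul _).neg.cexp)

lemma S_diff (hn : 2 ≤ n) (j : ℕ) :
    DifferentiableOn ℂ (S hn j) (ball (0 : EuclideanSpace ℂ (Fin n)) 1) := by
  intro a ha
  have h : a (i0 hn) ≠ 1 := by
    intro h
    have h1 := PiLp.norm_apply_le a (i0 hn)
    rw [h, norm_one] at h1
    rw [mem_ball_zero_iff] at ha
    linarith
  have h1 : (1 - a (i0 hn)) ≠ 0 := sub_ne_zero.2 (Ne.symm h)
  apply DifferentiableAt.differentiableWithinAt
  unfold S
  have h2 : DifferentiableAt ℂ (fun z : EuclideanSpace ℂ (Fin n) => z (i0 hn) / (1 - z (i0 hn))) a := by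
    simp only [div_eq_mul_inv]
    have h4 : DifferentiableAt ℂ (fun z : EuclideanSpace ℂ (Fin n) => 1 - z (i0 hn)) a := by fun_prop
    have h5 : DifferentiableAt ℂ (fun z : EuclideanSpace ℂ (Fin n) => z (i0 hn)) a := by fun_prop
    exact h5.fun_mul (h4.fun_inv h1)
  have h3 : DifferentiableAt ℂ (fun z : EuclideanSpace ℂ (Fin n) => z (i1 hn) ^ j *
      (1 - z (i0 hn))) a := by fun_prop
  exact h3.mul ((h2.const_mul _).neg.cexp)

/-- the special elements as continuous functions -/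
noncomputable def SC (hn : 2 ≤ n) (j : ℕ) : C(CB n, ℂ) := ⟨fun z => S hn j z, S_cont hn j⟩

lemma ext_SC (hn : 2 ≤ n) (j : ℕ) {z : EuclideanSpace ℂ (Fin n)}
    (hz : z ∈ closedBall (0 : EuclideanSpace ℂ (Fin n)) 1) : ext0 (SC hn j) z = S hn j z := by
  rw [ext0_mem _ hz]
  rfl

lemma T_SC (hn : 2 ≤ n) (i j : ℕ) {w : ℂ} (hw : w ∈ HP) :
    T i (Φ hn (SC hn j)) w =
      (if i = j then (j.factorial : ℂ) else 0) * (((w + 1) ^ (j + 1))⁻¹ * Complex.exp (-(rate j * w))) := by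
  have hw1 := w1_ne hw
  have h1 : (fun x => Φ hn (SC hn j) w x) =ᶠ[𝓝 0] fun x : ℂ => x ^ j *
      (((w + 1) ^ (j + 1))⁻¹ * Complex.exp (-(rate j * w))) := by
    filter_upwards [closedBall_mem_nhds (0 : ℂ) (by norm_num : (0 : ℝ) < 1 / 2)] with x hx
    rw [Φ, ext_SC hn j (ball_subset_closedBall (P_mem hn (small hw hx))), S, P_apply0, P_apply1]
    have h2 : 1 - w / (w + 1) = (w + 1)⁻¹ := by field_simp; ring
    have h3 : w / (w + 1) / (w + 1)⁻¹ = w := by field_simp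
    rw [h2, h3, div_pow, pow_succ]
    field_simp
  rw [T, h1.iteratedDeriv_eq i, iteratedDeriv_mul_const_field, iteratedDeriv_fun_pow_zero]
  push_cast
  rfl

section alg

variable (hn : 2 ≤ n) (A : Subalgebra ℂ C(CB n, ℂ))
  (hA : ∀ f : C(CB n, ℂ), f ∈ A ↔ ∃ g : EuclideanSpace ℂ (Fin n) → ℂ,
    DifferentiableOn ℂ g (Metric.ball (0 : EuclideanSpace ℂ (Fin n)) 1) ∧ ∀ x : CB n, f x = g x)

include hA in
lemma diff_of_mem {f : C(CB n, ℂ)} (hf : f ∈ A) : DifferentiableOn ℂ (ext0 f) (ball 0 1) := by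
  obtain ⟨g, hg, h⟩ := (hA f).1 hf
  exact ext0_diff hg h

include hA in
lemma SC_mem (j : ℕ) : SC hn j ∈ A := (hA _).2 ⟨S hn j, S_diff hn j, fun x => rfl⟩

include hA in
lemma T_lip {f g : C(CB n, ℂ)} (hf : f ∈ A) (hg : g ∈ A) (j : ℕ) {w : ℂ} (hw : w ∈ HP) :
    ‖T j (Φ hn f) w - T j (Φ hn g) w‖ ≤ j.factorial * 2 ^ j * ‖f - g‖ := by
  have hfg : f - g ∈ A := A.sub_mem hf hg
  have h1 : T j (Φ hn f) w - T j (Φ hn g) w = T j (Φ hn (f - g)) w := by
    have h2 := iteratedDeriv_fun_sub (n := j) ((Φ_nice hn (diff_of_mem A hA hf)).contDiffAt hw j)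
      ((Φ_nice hn (diff_of_mem A hA hg)).contDiffAt hw j)
    rw [T, T, ← h2, T]
    congr 1
    funext x
    rw [Φ, Φ, Φ, ext0_sub]
  rw [h1]
  exact (Φ_nice hn (diff_of_mem A hA hfg)).norm_T_le hw j

include hA in
lemma T_cont (j : ℕ) {w : ℂ} (hw : w ∈ HP) :
    Continuous (fun f : A => T j (Φ hn (f : C(CB n, ℂ))) w) := by
  rw [continuous_iff_continuousAt]
  intro f
  rw [ContinuousAt, tendsto_iff_norm_sub_tendsto_zero]
  refine squeeze_zero (fun _ => norm_nonneg _) (fun g => T_lip hn A hA g.2 f.2 j hw) ?_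
  have h1 : Continuous (fun g : A => j.factorial * 2 ^ j * ‖(g : C(CB n, ℂ)) - (f : C(CB n, ℂ))‖) := by
    fun_prop
  have h2 := h1.tendsto f
  simpa using h2

/-- the ideal -/
noncomputable def JJ : Ideal A where
  carrier := {f | ∀ j, Dec (rate j) (fun x : ℝ => T j (Φ hn (f : C(CB n, ℂ))) x)}
  add_mem' := by
    intro f g hf hg j
    refine ((hf j).add (hg j)).congr (fun x hx => ?_)
    have h2 := iteratedDeriv_fun_add (n := j)
      ((Φ_nice hn (diff_of_mem A hA f.2)).contDiffAt (ofReal_mem_HP hx) j)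
      ((Φ_nice hn (diff_of_mem A hA g.2)).contDiffAt (ofReal_mem_HP hx) j)
    rw [T, T, T, ← h2]
    congr 1
    funext y
    rw [Φ, Φ, Φ, ← ext0_add]
    rfl
  zero_mem' := by
    intro j
    refine (Dec.zero (rate j)).congr (fun x hx => ?_)
    have : (fun y => Φ hn ((0 : A) : C(CB n, ℂ)) x y) = fun _ => 0 := by
      funext y
      rw [Φ]
      unfold ext0
      split_ifs <;> simp
    rw [T, this]
    simp
  smul_mem' := by
    intro h f hf j
    have hh := Φ_nice hn (diff_of_mem A hA h.2)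
    have hf' := Φ_nice hn (diff_of_mem A hA f.2)
    have h1 : ∀ i ∈ Finset.range (j + 1), Dec (rate j) (fun x : ℝ =>
        (j.choose i : ℂ) * T i (Φ hn (h : C(CB n, ℂ))) x * T (j - i) (Φ hn (f : C(CB n, ℂ))) x) := by
      intro i hi
      have h2 := (((Dec.const (j.choose i : ℂ)).mul (hh.T_dec i)).mul (hf (j - i)))
      refine h2.mono ?_
      have := rate_anti (i := j - i) (j := j) (by omega)
      linarith
    refine (Dec.sum _ h1).congr (fun x hx => ?_)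
    rw [← T_mul hh hf' (ofReal_mem_HP hx)]
    rw [T, T]
    congr 1
    funext y
    rw [Φ, Φ, Φ, ← ext0_mul]
    rfl

lemma JJ_eq : (JJ hn A hA : Set A) = ⋂ (j : ℕ), ⋂ (x : ℝ), ⋂ (_ : 0 ≤ x),
    {f : A | ‖T j (Φ hn (f : C(CB n, ℂ))) x‖ ≤
      j.factorial * 2 ^ j * ‖(f : C(CB n, ℂ))‖ * Real.exp (-(rate j * x))} := by
  ext f
  simp only [mem_iInter, mem_ofPred_eq]
  constructor
  · intro hf j x hx
    have h1 := T_pl (Φ_nice hn (diff_of_mem A hA f.2)) (hf j) (w := x) (by simpa using hx)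
    rw [norm_mul, Complex.norm_exp] at h1
    have h7 : ((rate j : ℂ) * (x : ℂ)).re = rate j * x := by simp
    rw [h7] at h1
    calc ‖T j (Φ hn (f : C(CB n, ℂ))) x‖
        = (Real.exp (rate j * x) * ‖T j (Φ hn (f : C(CB n, ℂ))) x‖) * Real.exp (-(rate j * x)) := by
          rw [mul_comm (Real.exp (rate j * x)), mul_assoc, ← Real.exp_add]
          simp
      _ ≤ _ := by gcongr
  · intro hf j
    exact ⟨_, fun x hx => hf j x hx⟩

lemma JJ_closed : IsClosed (JJ hn A hA : Set A) := by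
  rw [JJ_eq]
  refine isClosed_iInter (fun j => isClosed_iInter (fun x => isClosed_iInter (fun hx => ?_)))
  refine isClosed_le (T_cont hn A hA j (ofReal_mem_HP hx)).norm ?_
  fun_prop

lemma SC_JJ (j : ℕ) : (⟨SC hn j, SC_mem hn A hA j⟩ : A) ∈ JJ hn A hA := by
  intro i
  refine ⟨j.factorial, fun x hx => ?_⟩
  show ‖T i (Φ hn (SC hn j)) x‖ ≤ _
  rw [T_SC hn i j (ofReal_mem_HP hx)]
  split_ifs with h
  · subst h
    rw [norm_mul, norm_mul, Complex.norm_exp, norm_natCast, norm_inv, norm_pow]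
    have h7 : (-((rate i : ℂ) * (x : ℂ))).re = -(rate i * x) := by simp
    rw [h7]
    have h8 : (1 : ℝ) ≤ ‖(x : ℂ) + 1‖ := by
      have : ((x : ℂ) + 1) = ((x + 1 : ℝ) : ℂ) := by push_cast; rfl
      rw [this, Complex.norm_real, Real.norm_eq_abs, abs_of_pos (by linarith)]
      linarith
    have h9 : (‖(x : ℂ) + 1‖ ^ (i + 1))⁻¹ ≤ 1 := inv_le_one_of_one_le₀ (one_le_pow₀ h8)
    calc (i.factorial : ℝ) * ((‖(x : ℂ) + 1‖ ^ (i + 1))⁻¹ * Real.exp (-(rate i * x)))
        ≤ (i.factorial : ℝ) * (1 * Real.exp (-(rate i * x))) := by gcongr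
      _ = _ := by ring
  · rw [zero_mul, norm_zero]
    positivity

end alg

end Pool.Agent.H93R3
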