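import Mathlib
import Pool.Agent.H93R3.BallD

set_option autoImplicit false

open Set Metric Filter Topology MeasureTheory Complex

namespace Pool.Agent.H93R3

variable {n : ℕ}

lemma Nice.mono {φ : ℂ → ℂ → ℂ} {M N : ℝ} (h : Nice φ M) (hMN : M ≤ N) : Nice φ N :=
  ⟨fun w hw x hx => (h.bdd w hw x hx).trans hMN, h.dw, h.dx⟩

/-- the exponential beats the powers -/
lemma no_bound (δ C : ℝ) (hδ : 0 < δ) (K : ℕ)
    (h : ∀ x : ℝ, 0 ≤ x → ((x + 1) ^ K)⁻¹ ≤ C * Real.exp (-(δ * x))) : False := by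
  have h1 : Tendsto (fun y : ℝ => y ^ K / Real.exp (δ * y)) atTop (𝓝 0) :=
    (isLittleO_pow_exp_pos_mul_atTop K hδ).tendsto_div_nhds_zero
  have h2 : Tendsto (fun y : ℝ => C * Real.exp δ * (y ^ K / Real.exp (δ * y))) atTop (𝓝 0) := by
    simpa using h1.const_mul (C * Real.exp δ)
  have h3 := (h2.eventually (gt_mem_nhds (zero_lt_one))).and (eventually_ge_atTop (1 : ℝ))
  obtain ⟨y, hy1, hy2⟩ := h3.exists
  have h4 := h (y - 1) (by linarith)
  rw [sub_add_cancel] at h4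
  have hpos : 0 < y ^ K := by positivity
  rw [inv_le_iff_one_le_mul₀ hpos] at h4
  have h5 : Real.exp (-(δ * (y - 1))) = Real.exp δ / Real.exp (δ * y) := by
    rw [← Real.exp_sub]
    congr 1
    ring
  rw [h5] at h4
  have h6 : C * (Real.exp δ / Real.exp (δ * y)) * y ^ K = C * Real.exp δ * (y ^ K / Real.exp (δ * y)) := by
    ring
  rw [h6] at h4
  linarith

theorem not_fg (hn : 2 ≤ n) (A : Subalgebra ℂ C(CB n, ℂ))
    (hA : ∀ f : C(CB n, ℂ), f ∈ A ↔ ∃ g : EuclideanSpace ℂ (Fin n) → ℂ,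
      DifferentiableOn ℂ g (Metric.ball (0 : EuclideanSpace ℂ (Fin n)) 1) ∧ ∀ x : CB n, f x = g x)
    (I : Ideal A) (hI : I.FG) : closure (I : Set A) ≠ (JJ hn A hA : Set A) := by
  intro hcl
  obtain ⟨s, hs⟩ := hI
  set m := s.card with hm
  set g : Fin m → A := fun l => (s.equivFin.symm l : A) with hg
  have hspan : Ideal.span (Set.range g) = I := by
    rw [← hs]
    congr 1
    ext a
    simp only [hg, mem_range, Finset.mem_coe]
    constructor
    · rintro ⟨l, rfl⟩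
      exact (s.equivFin.symm l).2
    · intro ha
      exact ⟨s.equivFin ⟨a, ha⟩, by simp⟩
  have hgJ : ∀ l, g l ∈ JJ hn A hA := by
    intro l
    have h1 : g l ∈ (I : Set A) := by
      rw [← hspan]
      exact Ideal.subset_span (mem_range_self l)
    have h2 := subset_closure h1
    rw [hcl] at h2
    exact h2
  set f : Fin (m + 1) → A := fun j => ⟨SC hn j, SC_mem hn A hA j⟩ with hf
  have hfJ : ∀ j, f j ∈ closure (I : Set A) := by
    intro j
    rw [hcl]
    exact SC_JJ hn A hA j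
  -- approximation
  have happ : ∀ (k : ℕ) (j : Fin (m + 1)), ∃ p : A, p ∈ I ∧ dist (f j) p < 1 / ((k : ℝ) + 1) := by
    intro k j
    obtain ⟨p, hp, hd⟩ := Metric.mem_closure_iff.1 (hfJ j) (1 / ((k : ℝ) + 1)) (by positivity)
    exact ⟨p, hp, hd⟩
  choose p hpI hpd using happ
  have hnorm : ∀ k j, ‖(f j : C(CB n, ℂ)) - (p k j : C(CB n, ℂ))‖ < 1 / ((k : ℝ) + 1) := by
    intro k j
    rw [← dist_eq_norm]
    exact hpd k j
  have hcomb : ∀ k j, ∃ h : Fin m → A, ∑ l, h l * g l = p k j := by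
    intro k j
    have h1 := hpI k j
    rw [← hspan] at h1
    exact Ideal.mem_span_range_iff_exists_fun.1 h1
  choose h hh using hcomb
  set K : ℝ := ∑ j, ‖(f j : C(CB n, ℂ))‖ + 1 with hK
  have hpK : ∀ k j, ‖(p k j : C(CB n, ℂ))‖ ≤ K := by
    intro k j
    have h1 : ‖(p k j : C(CB n, ℂ))‖ ≤ ‖(f j : C(CB n, ℂ))‖ +
        ‖(f j : C(CB n, ℂ)) - (p k j : C(CB n, ℂ))‖ := by
      have := norm_sub_le (f j : C(CB n, ℂ)) ((f j : C(CB n, ℂ)) - (p k j : C(CB n, ℂ)))
      simpa using this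
    have h2 : ‖(f j : C(CB n, ℂ))‖ ≤ ∑ j, ‖(f j : C(CB n, ℂ))‖ :=
      Finset.single_le_sum (f := fun j => ‖(f j : C(CB n, ℂ))‖) (fun _ _ => norm_nonneg _)
        (Finset.mem_univ j)
    have h3 := hnorm k j
    have h4 : 1 / ((k : ℝ) + 1) ≤ 1 := by
      rw [div_le_one (by positivity)]
      have : (0 : ℝ) ≤ k := Nat.cast_nonneg k
      linarith
    linarith
  set C : ℝ := (m + 1).factorial * (m.factorial * 2 ^ m * K) ^ (m + 1) with hC
  set δ : ℝ := 1 / ((m : ℝ) + 1) ^ 2 with hδ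
  have hbound : ∀ (k : ℕ) (x : ℝ), 0 ≤ x →
      ‖(Matrix.of fun i j : Fin (m + 1) => Complex.exp (rate i * x) *
        T i (Φ hn (p k j : C(CB n, ℂ))) x).det‖ ≤ C * Real.exp (-(δ * x)) := by
    intro k x hx
    refine core m (fun l => Φ hn (g l : C(CB n, ℂ))) (fun l => ‖(g l : C(CB n, ℂ))‖)
      (fun l => Φ_nice hn (diff_of_mem A hA (g l).2)) (fun l j => hgJ l j)
      (fun j l => Φ hn (h k j l : C(CB n, ℂ))) (fun j l => ‖(h k j l : C(CB n, ℂ))‖)
      (fun j l => Φ_nice hn (diff_of_mem A hA (h k j l).2))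
      (fun j => Φ hn (p k j : C(CB n, ℂ))) K
      (fun j => (Φ_nice hn (diff_of_mem A hA (p k j).2)).mono (hpK k j)) ?_ ?_ x hx
    · intro j i
      have h1 : p k j ∈ JJ hn A hA := by
        have h2 := subset_closure (hpI k j : p k j ∈ (I : Set A))
        rw [hcl] at h2
        exact h2
      exact h1 i
    · intro j w hw i
      have h1 : (fun x => Φ hn (p k j : C(CB n, ℂ)) w x) = fun x => ∑ l ∈ (Finset.univ : Finset (Fin m)),
          Φ hn (h k j l : C(CB n, ℂ)) w x * Φ hn (g l : C(CB n, ℂ)) w x := by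
        funext x
        have h2 : (p k j : C(CB n, ℂ)) = ∑ l, (h k j l : C(CB n, ℂ)) * (g l : C(CB n, ℂ)) := by
          rw [← hh k j]
          push_cast
          rfl
        simp only [Φ]
        rw [h2, ext0_sum]
        simp only [ext0_mul]
      have h3 := T_sum (Finset.univ : Finset (Fin m)) (fun l w x => Φ hn (h k j l : C(CB n, ℂ)) w x *
        Φ hn (g l : C(CB n, ℂ)) w x) _ (fun l _ => (Φ_nice hn (diff_of_mem A hA (h k j l).2)).mul
          (Φ_nice hn (diff_of_mem A hA (g l).2))) hw i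
      rw [← h3, T, T, h1]
  have hlim : ∀ x : ℝ, 0 ≤ x → ‖(Matrix.of fun i j : Fin (m + 1) => Complex.exp (rate i * x) *
        T i (Φ hn (f j : C(CB n, ℂ))) x).det‖ ≤ C * Real.exp (-(δ * x)) := by
    intro x hx
    have hxH := ofReal_mem_HP hx
    have h1 : Tendsto (fun k : ℕ => (Matrix.of fun i j : Fin (m + 1) => Complex.exp (rate i * x) *
        T i (Φ hn (p k j : C(CB n, ℂ))) x)) atTop (𝓝 (Matrix.of fun i j : Fin (m + 1) =>
          Complex.exp (rate i * x) * T i (Φ hn (f j : C(CB n, ℂ))) x)) := by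
      refine tendsto_pi_nhds.2 (fun i => tendsto_pi_nhds.2 (fun j => ?_))
      simp only [Matrix.of_apply]
      refine Tendsto.const_mul _ ?_
      rw [tendsto_iff_norm_sub_tendsto_zero]
      refine squeeze_zero (fun _ => norm_nonneg _)
        (g := fun k : ℕ => (i : ℕ).factorial * 2 ^ (i : ℕ) * (1 / ((k : ℝ) + 1))) (fun k => ?_) ?_
      · refine (T_lip hn A hA (p k j).2 (f j).2 i hxH).trans ?_
        rw [norm_sub_rev]
        have := (hnorm k j).le
        gcongr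
      · simpa using (tendsto_one_div_add_atTop_nhds_zero_nat (𝕜 := ℝ)).const_mul
          ((i : ℕ).factorial * 2 ^ (i : ℕ) : ℝ)
    have h2 : Tendsto (fun k : ℕ => ‖(Matrix.of fun i j : Fin (m + 1) => Complex.exp (rate i * x) *
        T i (Φ hn (p k j : C(CB n, ℂ))) x).det‖) atTop (𝓝 ‖(Matrix.of fun i j : Fin (m + 1) =>
          Complex.exp (rate i * x) * T i (Φ hn (f j : C(CB n, ℂ))) x).det‖) := by
      have h3 : Continuous (fun M : Matrix (Fin (m + 1)) (Fin (m + 1)) ℂ => ‖M.det‖) :=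
        (Continuous.matrix_det continuous_id).norm
      exact (h3.tendsto _).comp h1
    exact le_of_tendsto' h2 (fun k => hbound k x hx)
  have hδ0 : 0 < δ := by positivity
  refine no_bound δ C hδ0 ((m + 1) * (m + 1)) (fun x hx => ?_)
  refine le_trans ?_ (hlim x hx)
  have hxH := ofReal_mem_HP hx
  have h1 : (Matrix.of fun i j : Fin (m + 1) => Complex.exp (rate i * x) *
      T i (Φ hn (f j : C(CB n, ℂ))) x) = Matrix.diagonal (fun i : Fin (m + 1) =>
        ((i : ℕ).factorial : ℂ) * (((x : ℂ) + 1) ^ ((i : ℕ) + 1))⁻¹) := by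
    ext i j
    rw [Matrix.of_apply]
    have h2 : T i (Φ hn (f j : C(CB n, ℂ))) x = T i (Φ hn (SC hn j)) x := rfl
    rw [h2, T_SC hn i j hxH]
    by_cases hij : i = j
    · subst hij
      rw [Matrix.diagonal_apply_eq, if_pos rfl]
      have h3 : Complex.exp (rate i * x) * Complex.exp (-(rate i * x)) = 1 := by
        rw [← Complex.exp_add]; simp
      linear_combination ((i : ℕ).factorial : ℂ) * (((x : ℂ) + 1) ^ ((i : ℕ) + 1))⁻¹ * h3
    · rw [Matrix.diagonal_apply_ne _ hij, if_neg (fun h => hij (Fin.ext h))]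
      simp
  rw [h1, Matrix.det_diagonal, norm_prod]
  have h2 : ∀ i : Fin (m + 1), ((x + 1) ^ (m + 1))⁻¹ ≤
      ‖((i : ℕ).factorial : ℂ) * (((x : ℂ) + 1) ^ ((i : ℕ) + 1))⁻¹‖ := by
    intro i
    have h8 : ‖(x : ℂ) + 1‖ = x + 1 := by
      have : ((x : ℂ) + 1) = ((x + 1 : ℝ) : ℂ) := by push_cast; rfl
      rw [this, Complex.norm_real, Real.norm_eq_abs, abs_of_pos (by linarith)]
    rw [norm_mul, norm_natCast, norm_inv, norm_pow, h8]
    have h9 : (1 : ℝ) ≤ (i : ℕ).factorial := by exact_mod_cast Nat.succ_le_of_lt (Nat.factorial_pos i)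
    have h10 : ((x + 1) ^ (m + 1))⁻¹ ≤ ((x + 1) ^ ((i : ℕ) + 1))⁻¹ := by
      apply inv_anti₀ (by positivity)
      exact pow_le_pow_right₀ (by linarith) (by omega)
    calc ((x + 1) ^ (m + 1))⁻¹ = 1 * ((x + 1) ^ (m + 1))⁻¹ := (one_mul _).symm
      _ ≤ _ := by gcongr
  calc ((x + 1) ^ ((m + 1) * (m + 1)))⁻¹ = ∏ _i : Fin (m + 1), ((x + 1) ^ (m + 1))⁻¹ := by
        rw [Finset.prod_const, Finset.card_univ, Fintype.card_fin, inv_pow, ← pow_mul]
    _ ≤ _ := Finset.prod_le_prod (fun i _ => by positivity) (fun i _ => h2 i)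

end Pool.Agent.H93R3
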