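import Mathlib

set_option autoImplicit false

open Complex

namespace Pool.Agent.H93R3.Gam

local instance fact2pi : Fact ((0 : ℝ) < 2 * Real.pi) := ⟨Real.two_pi_pos⟩

/-- sums of an entire function and the conjugate of one, on the circle -/
def Rep (f : C(AddCircle (2 * Real.pi), ℂ)) : Prop :=
  ∃ H1 H2 : ℂ → ℂ, Differentiable ℂ H1 ∧ Differentiable ℂ H2 ∧
    ∀ x : AddCircle (2 * Real.pi), f x = H1 (AddCircle.toCircle x : ℂ) +
      (starRingEnd ℂ) (H2 (AddCircle.toCircle x : ℂ))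

lemma rep_fourier (n : ℤ) : Rep (fourier n) := by
  rcases le_total 0 n with hn | hn
  · obtain ⟨m, rfl⟩ := Int.eq_ofNat_of_zero_le hn
    refine ⟨fun z => z ^ m, fun _ => 0, differentiable_id.pow m, differentiable_const 0, ?_⟩
    intro x
    rw [fourier_apply, AddCircle.toCircle_zsmul]
    simp
  · obtain ⟨m, hm⟩ := Int.eq_ofNat_of_zero_le (neg_nonneg.mpr hn)
    obtain rfl : n = -(m : ℤ) := by omega
    refine ⟨fun _ => 0, fun z => z ^ m, differentiable_const 0, differentiable_id.pow m, ?_⟩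
    intro x
    rw [fourier_apply, AddCircle.toCircle_zsmul]
    simp only [zpow_neg, zpow_natCast, Circle.coe_inv, Circle.coe_pow, zero_add, map_pow]
    rw [← inv_pow, ← Circle.coe_inv_eq_conj, Circle.coe_inv]

lemma rep_span (f : C(AddCircle (2 * Real.pi), ℂ))
    (hf : f ∈ Submodule.span ℂ (Set.range (fourier (T := 2 * Real.pi)))) : Rep f := by
  induction hf using Submodule.span_induction with
  | mem x hx =>
    obtain ⟨n, rfl⟩ := hx
    exact rep_fourier n
  | zero =>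
    exact ⟨fun _ => 0, fun _ => 0, differentiable_const 0, differentiable_const 0, by simp⟩
  | add x y _ _ hx hy =>
    obtain ⟨A1, A2, hA1, hA2, hA⟩ := hx
    obtain ⟨B1, B2, hB1, hB2, hB⟩ := hy
    refine ⟨fun z => A1 z + B1 z, fun z => A2 z + B2 z, hA1.add hB1, hA2.add hB2, ?_⟩
    intro t
    rw [ContinuousMap.add_apply, hA, hB, map_add]
    ring
  | smul c x _ hx =>
    obtain ⟨A1, A2, hA1, hA2, hA⟩ := hx
    refine ⟨fun z => c * A1 z, fun z => (starRingEnd ℂ) c * A2 z, hA1.const_mul c,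
      hA2.const_mul _, ?_⟩
    intro t
    rw [ContinuousMap.smul_apply, hA, smul_eq_mul, map_mul, Complex.conj_conj]
    ring

/-- real parts of entire functions are uniformly dense on the circle -/
theorem exists_entire (φ : ℂ → ℝ) (hφ : ContinuousOn φ (Metric.sphere 0 1)) (ε : ℝ) (hε : 0 < ε) :
    ∃ H : ℂ → ℂ, Differentiable ℂ H ∧ ∀ z : ℂ, ‖z‖ = 1 → |(H z).re - φ z| ≤ ε := by
  have hc : Continuous fun x : AddCircle (2 * Real.pi) =>
      ((φ (AddCircle.toCircle x : ℂ) : ℝ) : ℂ) := by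
    refine Complex.continuous_ofReal.comp ?_
    refine hφ.comp_continuous (continuous_subtype_val.comp AddCircle.continuous_toCircle) ?_
    intro x
    simp
  set F : C(AddCircle (2 * Real.pi), ℂ) := ⟨_, hc⟩ with hF
  have hmem : F ∈ (Submodule.span ℂ
      (Set.range (fourier (T := 2 * Real.pi)))).topologicalClosure := by
    rw [span_fourier_closure_eq_top]
    trivial
  have hmem2 : F ∈ closure ((Submodule.span ℂ
      (Set.range (fourier (T := 2 * Real.pi))) : Submodule ℂ C(AddCircle (2 * Real.pi), ℂ)) :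
        Set C(AddCircle (2 * Real.pi), ℂ)) := hmem
  obtain ⟨f, hf, hfd⟩ := Metric.mem_closure_iff.mp hmem2 ε hε
  obtain ⟨H1, H2, hH1, hH2, hH⟩ := rep_span f hf
  refine ⟨fun z => H1 z + H2 z, hH1.add hH2, ?_⟩
  intro z hz
  obtain ⟨θ, hθ⟩ := (Complex.norm_eq_one_iff z).mp hz
  have hzc : ((AddCircle.toCircle ((θ : ℝ) : AddCircle (2 * Real.pi))) : ℂ) = z := by
    rw [AddCircle.toCircle_apply_mk, Circle.coe_exp, ← hθ]
    congr 1
    have : (2 * Real.pi) / (2 * Real.pi) = 1 := div_self (ne_of_gt Real.two_pi_pos)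
    rw [this, one_mul]
  have h1 := hH ((θ : ℝ) : AddCircle (2 * Real.pi))
  rw [hzc] at h1
  have h2 : F ((θ : ℝ) : AddCircle (2 * Real.pi)) = ((φ z : ℝ) : ℂ) := by
    rw [hF]
    show ((φ (AddCircle.toCircle ((θ : ℝ) : AddCircle (2 * Real.pi)) : ℂ) : ℝ) : ℂ) = _
    rw [hzc]
  have h3 : ‖(f - F) ((θ : ℝ) : AddCircle (2 * Real.pi))‖ ≤ ‖f - F‖ :=
    ContinuousMap.norm_coe_le_norm _ _
  rw [dist_comm, dist_eq_norm] at hfd
  have h4 : (H1 z + H2 z).re - φ z =
      ((f - F) ((θ : ℝ) : AddCircle (2 * Real.pi))).re := by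
    rw [ContinuousMap.sub_apply, h1, h2]
    simp
  show |(H1 z + H2 z).re - φ z| ≤ ε
  rw [h4]
  exact (Complex.abs_re_le_norm _).trans (h3.trans hfd.le)

end Pool.Agent.H93R3.Gam
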