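import Pool.Agent.H93R3.GamU

set_option autoImplicit false

open Complex MeasureTheory

namespace Pool.Agent.H93R3.Gam

lemma posT (x1 x2 v1 v2 H1 H2 : ℂ)
    (h : ‖x1‖ ^ 2 + ‖x2‖ ^ 2 ≤ 101 / 100 * (‖v1‖ ^ 2 + ‖v2‖ ^ 2)) :
    0 ≤ (v1 * (starRingEnd ℂ) v1 + v2 * (starRingEnd ℂ) v2 +
      (101 / 100 : ℝ) * (H1 * (starRingEnd ℂ) H1 + H2 * (starRingEnd ℂ) H2) -
      (2 : ℝ) * (x1 * (starRingEnd ℂ) H1 + x2 * (starRingEnd ℂ) H2)).re := by
  simp only [Complex.sq_norm, Complex.normSq_apply] at h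
  simp only [Complex.add_re, Complex.sub_re, Complex.mul_re, Complex.mul_im,
    Complex.conj_re, Complex.conj_im, Complex.ofReal_re, Complex.ofReal_im, Complex.add_im]
  nlinarith [sq_nonneg (x1.re - 101 / 100 * H1.re), sq_nonneg (x1.im - 101 / 100 * H1.im),
    sq_nonneg (x2.re - 101 / 100 * H2.re), sq_nonneg (x2.im - 101 / 100 * H2.im)]

lemma kp_ne (r : ℝ) (hr : |r| ≤ 11 / 20) (z : ℂ) (hz : ‖z‖ < 11 / 10) : 1 - (r : ℂ) * z ≠ 0 := by
  intro h
  have h1 : (r : ℂ) * z = 1 := by linear_combination -h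
  have h2 : ‖(r : ℂ) * z‖ = 1 := by rw [h1]; simp
  rw [norm_mul, Complex.norm_real, Real.norm_eq_abs] at h2
  have h3 : |r| * ‖z‖ ≤ 11 / 20 * (11 / 10) :=
    mul_le_mul hr hz.le (norm_nonneg _) (by norm_num)
  linarith

lemma kp_diff (r : ℝ) (hr : |r| ≤ 11 / 20) :
    DifferentiableOn ℂ (fun z : ℂ => (1 - (r : ℂ) * z)⁻¹) (Metric.ball 0 (11 / 10)) := by
  refine DifferentiableOn.inv ?_ ?_
  · exact (differentiableOn_const _).sub (differentiableOn_id.const_mul _)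
  · intro z hz
    exact kp_ne r hr z (by simpa using hz)

lemma kp_conj (r : ℝ) (hr : |r| ≤ 11 / 20) (z : ℂ) (hz : ‖z‖ = 1) :
    (starRingEnd ℂ) ((1 - (r : ℂ) * z)⁻¹) = z / (z - r) := by
  have hzz : z * (starRingEnd ℂ) z = 1 := by
    rw [Complex.mul_conj, Complex.normSq_eq_norm_sq, hz]
    norm_num
  have hne : z - (r : ℂ) ≠ 0 := by
    intro h
    have h1 : z = r := sub_eq_zero.mp h
    rw [h1, Complex.norm_real, Real.norm_eq_abs] at hz
    rw [hz] at hr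
    norm_num at hr
  have hne2 : 1 - (r : ℂ) * (starRingEnd ℂ) z ≠ 0 := by
    refine kp_ne r hr _ ?_
    rw [Complex.norm_conj, hz]
    norm_num
  rw [map_inv₀, map_sub, map_one, map_mul, Complex.conj_ofReal]
  rw [inv_eq_one_div, div_eq_div_iff hne2 hne]
  linear_combination (r : ℂ) * hzz

/-- no such matrix function -/
theorem core (α b c : ℂ → ℂ) (hα : DifferentiableOn ℂ α (Metric.ball 0 (11 / 10)))
    (hb : DifferentiableOn ℂ b (Metric.ball 0 (11 / 10)))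
    (hc : DifferentiableOn ℂ c (Metric.ball 0 (11 / 10)))
    (hα0 : α 0 = 0) (hc0 : c 0 = 0)
    (hαp : α ((11 / 20 : ℝ) : ℂ) = 3 / 10) (hαm : α ((-(11 / 20) : ℝ) : ℂ) = -(3 / 10))
    (hp : b ((11 / 20 : ℝ) : ℂ) * c ((11 / 20 : ℝ) : ℂ) = 9 / 100)
    (hm : b ((-(11 / 20) : ℝ) : ℂ) * c ((-(11 / 20) : ℝ) : ℂ) = 9 / 100)
    (hctr : ∀ z : ℂ, ‖z‖ = 1 → ∀ v1 v2 : ℂ,
      ‖α z * v1 + c z * v2‖ ^ 2 + ‖b z * v1 + α z * v2‖ ^ 2 ≤
        101 / 100 * (‖v1‖ ^ 2 + ‖v2‖ ^ 2)) : False := by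
  obtain ⟨P, hP⟩ : ∃ P : ℂ, b ((11 / 20 : ℝ) : ℂ) = P := ⟨_, rfl⟩
  obtain ⟨N, hN⟩ : ∃ N : ℂ, b ((-(11 / 20) : ℝ) : ℂ) = N := ⟨_, rfl⟩
  obtain ⟨P', hP'⟩ : ∃ P' : ℂ, (starRingEnd ℂ) P = P' := ⟨_, rfl⟩
  obtain ⟨N', hN'⟩ : ∃ N' : ℂ, (starRingEnd ℂ) N = N' := ⟨_, rfl⟩
  have hPP : (starRingEnd ℂ) P' = P := by rw [← hP', Complex.conj_conj]
  have hNN : (starRingEnd ℂ) N' = N := by rw [← hN', Complex.conj_conj]
  have hr1 : |(11 / 20 : ℝ)| ≤ 11 / 20 := by rw [abs_of_pos] <;> norm_num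
  have hr2 : |(-(11 / 20) : ℝ)| ≤ 11 / 20 := by rw [abs_neg]; exact hr1
  set kp : ℂ → ℂ := fun z => (1 - ((11 / 20 : ℝ) : ℂ) * z)⁻¹ with hkp
  set km : ℂ → ℂ := fun z => (1 - ((-(11 / 20) : ℝ) : ℂ) * z)⁻¹ with hkm
  have dkp : DifferentiableOn ℂ kp (Metric.ball 0 (11 / 10)) := kp_diff _ hr1
  have dkm : DifferentiableOn ℂ km (Metric.ball 0 (11 / 10)) := kp_diff _ hr2
  set v1 : ℂ → ℂ := fun z => 3 / 5 * (P' * kp z - N' * km z) with hv1
  set v2 : ℂ → ℂ := fun z => 9 / 50 * (kp z + km z) with hv2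
  set H1 : ℂ → ℂ := fun z => -(P' + N') + P' * kp z + N' * km z with hH1
  set H2 : ℂ → ℂ := fun z => 3 / 10 * (kp z - km z) with hH2
  set x1 : ℂ → ℂ := fun z => α z * v1 z + c z * v2 z with hx1
  set x2 : ℂ → ℂ := fun z => b z * v1 z + α z * v2 z with hx2
  have dv1 : DifferentiableOn ℂ v1 (Metric.ball 0 (11 / 10)) :=
    ((dkp.const_mul P').sub (dkm.const_mul N')).const_mul _
  have dv2 : DifferentiableOn ℂ v2 (Metric.ball 0 (11 / 10)) := (dkp.add dkm).const_mul _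
  have dH1 : DifferentiableOn ℂ H1 (Metric.ball 0 (11 / 10)) :=
    ((differentiableOn_const _).add (dkp.const_mul P')).add (dkm.const_mul N')
  have dH2 : DifferentiableOn ℂ H2 (Metric.ball 0 (11 / 10)) := (dkp.sub dkm).const_mul _
  have dx1 : DifferentiableOn ℂ x1 (Metric.ball 0 (11 / 10)) := (hα.mul dv1).add (hc.mul dv2)
  have dx2 : DifferentiableOn ℂ x2 (Metric.ball 0 (11 / 10)) := (hb.mul dv1).add (hα.mul dv2)
  set u0 : ℂ → ℂ := fun z => -(P + N) * (101 / 100 * H1 z - 2 * x1 z) with hu0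
  set u1 : ℂ → ℂ := fun z => 3 / 5 * P * v1 z + 9 / 50 * v2 z +
    101 / 100 * (P * H1 z + 3 / 10 * H2 z) - 2 * (P * x1 z + 3 / 10 * x2 z) with hu1
  set u2 : ℂ → ℂ := fun z => -(3 / 5) * N * v1 z + 9 / 50 * v2 z +
    101 / 100 * (N * H1 z - 3 / 10 * H2 z) - 2 * (N * x1 z - 3 / 10 * x2 z) with hu2
  have du0 : DifferentiableOn ℂ u0 (Metric.ball 0 (11 / 10)) :=
    ((dH1.const_mul _).sub (dx1.const_mul _)).const_mul _
  have du1 : DifferentiableOn ℂ u1 (Metric.ball 0 (11 / 10)) :=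
    (((dv1.const_mul _).add (dv2.const_mul _)).add
      (((dH1.const_mul _).add (dH2.const_mul _)).const_mul _)).sub
      (((dx1.const_mul _).add (dx2.const_mul _)).const_mul _)
  have du2 : DifferentiableOn ℂ u2 (Metric.ball 0 (11 / 10)) :=
    (((dv1.const_mul _).add (dv2.const_mul _)).add
      (((dH1.const_mul _).sub (dH2.const_mul _)).const_mul _)).sub
      (((dx1.const_mul _).sub (dx2.const_mul _)).const_mul _)
  have hn1 : ‖((11 / 20 : ℝ) : ℂ)‖ < 1 := by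
    rw [Complex.norm_real, Real.norm_eq_abs]; exact lt_of_le_of_lt hr1 (by norm_num)
  have hn2 : ‖((-(11 / 20) : ℝ) : ℂ)‖ < 1 := by
    rw [Complex.norm_real, Real.norm_eq_abs]; exact lt_of_le_of_lt hr2 (by norm_num)
  have key := avg3 u0 u1 u2 du0 du1 du2 0 ((11 / 20 : ℝ) : ℂ) ((-(11 / 20) : ℝ) : ℂ)
    (by simp) hn1 hn2 ?_
  · -- evaluate
    have kp0 : kp 0 = 1 := by simp [hkp]
    have km0 : km 0 = 1 := by simp [hkm]
    have kpp : kp ((11 / 20 : ℝ) : ℂ) = 400 / 279 := by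
      rw [hkp]; push_cast; norm_num
    have kmp : km ((11 / 20 : ℝ) : ℂ) = 400 / 521 := by
      rw [hkm]; push_cast; norm_num
    have kpm : kp ((-(11 / 20) : ℝ) : ℂ) = 400 / 521 := by
      rw [hkp]; push_cast; norm_num
    have kmm : km ((-(11 / 20) : ℝ) : ℂ) = 400 / 279 := by
      rw [hkm]; push_cast; norm_num
    have e0 : u0 0 = 0 := by
      simp only [hu0, hH1, hx1, kp0, km0, hα0, hc0]
      ring
    rw [hP] at hp
    rw [hN] at hm
    have etot : u0 0 + u1 ((11 / 20 : ℝ) : ℂ) + u2 ((-(11 / 20) : ℝ) : ℂ) =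
        101 / 100 * (400 / 279 * (P * P' + N * N') + 400 / 521 * (P * N' + N * P') -
          (P + N) * (P' + N') + 18 / 100 * (400 / 279 - 400 / 521)) -
        9 / 25 * (400 / 279 * (P * P' + N * N') - 400 / 521 * (P * N' + N * P') +
          18 / 100 * (400 / 279 + 400 / 521)) := by
      rw [e0]
      simp only [hu1, hu2, hx1, hx2, hv1, hv2, hH1, hH2, kpp, kmp, kpm, kmm, hαp, hαm, hP, hN]
      linear_combination (-2 * (9 / 50 * (400 / 279 + 400 / 521))) * hp +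
        (-2 * (9 / 50 * (400 / 279 + 400 / 521))) * hm
    rw [etot] at key
    rw [← hP', ← hN'] at key
    have kre : (101 / 100 * (400 / 279 * (P * (starRingEnd ℂ) P + N * (starRingEnd ℂ) N) +
          400 / 521 * (P * (starRingEnd ℂ) N + N * (starRingEnd ℂ) P) -
          (P + N) * ((starRingEnd ℂ) P + (starRingEnd ℂ) N) + 18 / 100 * (400 / 279 - 400 / 521)) -
        9 / 25 * (400 / 279 * (P * (starRingEnd ℂ) P + N * (starRingEnd ℂ) N) -
          400 / 521 * (P * (starRingEnd ℂ) N + N * (starRingEnd ℂ) P) +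
          18 / 100 * (400 / 279 + 400 / 521)) : ℂ) =
        ((101 / 100 * (400 / 279 * (P.re ^ 2 + P.im ^ 2 + (N.re ^ 2 + N.im ^ 2)) +
          400 / 521 * (2 * (P.re * N.re + P.im * N.im)) -
          ((P.re + N.re) ^ 2 + (P.im + N.im) ^ 2) + 18 / 100 * (400 / 279 - 400 / 521)) -
        9 / 25 * (400 / 279 * (P.re ^ 2 + P.im ^ 2 + (N.re ^ 2 + N.im ^ 2)) -
          400 / 521 * (2 * (P.re * N.re + P.im * N.im)) +
          18 / 100 * (400 / 279 + 400 / 521)) : ℝ) : ℂ) := by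
      have hPre : P = (P.re : ℂ) + P.im * I := (Complex.re_add_im P).symm
      have hNre : N = (N.re : ℂ) + N.im * I := (Complex.re_add_im N).symm
      have hPc : (starRingEnd ℂ) P = (P.re : ℂ) - P.im * I := by
        apply Complex.ext <;> simp
      have hNc : (starRingEnd ℂ) N = (N.re : ℂ) - N.im * I := by
        apply Complex.ext <;> simp
      rw [hPc, hNc]
      generalize P.re = p1 at *
      generalize P.im = p2 at *
      generalize N.re = n1 at *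
      generalize N.im = n2 at *
      rw [hPre, hNre]
      push_cast
      ring_nf
      rw [Complex.I_sq]
      ring
    rw [kre, Complex.ofReal_re] at key
    nlinarith [sq_nonneg (P.re - N.re), sq_nonneg (P.im - N.im), sq_nonneg (P.re + N.re),
      sq_nonneg (P.im + N.im)]
  · intro z hz
    have ckp : (starRingEnd ℂ) (kp z) = z / (z - ((11 / 20 : ℝ) : ℂ)) := kp_conj _ hr1 z hz
    have ckm : (starRingEnd ℂ) (km z) = z / (z - ((-(11 / 20) : ℝ) : ℂ)) := kp_conj _ hr2 z hz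
    have hz0 : z ≠ 0 := by
      intro h
      rw [h] at hz
      simp at hz
    have c0 : z / (z - 0) = 1 := by rw [sub_zero, div_self hz0]
    rw [c0, ← ckp, ← ckm]
    have hT := posT (x1 z) (x2 z) (v1 z) (v2 z) (H1 z) (H2 z) (hctr z hz (v1 z) (v2 z))
    refine hT.trans (le_of_eq ?_)
    congr 1
    have cv1 : (starRingEnd ℂ) (v1 z) = 3 / 5 * (P * (starRingEnd ℂ) (kp z) -
        N * (starRingEnd ℂ) (km z)) := by
      simp only [hv1, map_mul, map_sub, hPP, hNN]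
      congr 1
      simp [map_ofNat]
    have cv2 : (starRingEnd ℂ) (v2 z) = 9 / 50 * ((starRingEnd ℂ) (kp z) +
        (starRingEnd ℂ) (km z)) := by
      simp only [hv2, map_mul, map_add]
      congr 1
      simp [map_ofNat]
    have cH1 : (starRingEnd ℂ) (H1 z) = -(P + N) + P * (starRingEnd ℂ) (kp z) +
        N * (starRingEnd ℂ) (km z) := by
      simp only [hH1, map_mul, map_add, map_neg, hPP, hNN]
    have cH2 : (starRingEnd ℂ) (H2 z) = 3 / 10 * ((starRingEnd ℂ) (kp z) -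
        (starRingEnd ℂ) (km z)) := by
      simp only [hH2, map_mul, map_sub]
      congr 1
      simp [map_ofNat]
    rw [cv1, cv2, cH1, cH2]
    simp only [hu0, hu1, hu2]
    push_cast
    ring

end Pool.Agent.H93R3.Gam
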