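import Pool.Agent.H93R3.GamC

set_option autoImplicit false

open Complex MeasureTheory

namespace Pool.Agent.H93R3.Gam

lemma bc_bound (q B : ℂ) (φ : ℝ) (hq : ‖q‖ ≤ 1)
    (hφ : φ = 1 / 2 * Real.log (‖q‖ + 1 / 1000000)) (hB : |B.re - φ| ≤ 1 / 100000) :
    ‖Complex.exp B‖ ^ 2 + ‖q * Complex.exp (-B)‖ ^ 2 ≤
      2 * ‖Complex.exp B * (q * Complex.exp (-B))‖ + 9 / 100000 := by
  have hq0 := norm_nonneg q
  have hpos : 0 < ‖q‖ + 1 / 1000000 := by positivity
  have hprod : Complex.exp B * (q * Complex.exp (-B)) = q := by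
    rw [Complex.exp_neg]
    field_simp [Complex.exp_ne_zero B]
  rw [hprod, norm_mul, Complex.norm_exp, Complex.norm_exp, Complex.neg_re]
  have hb := abs_le.mp hB
  have he : Real.exp (2 / 100000) ≤ 1 + 4 / 100000 := by
    have := Real.abs_exp_sub_one_le (x := 2 / 100000) (by rw [abs_of_pos] <;> norm_num)
    rw [abs_of_pos (show (0:ℝ) < 2 / 100000 by norm_num)] at this
    have h2 := (abs_le.mp this).2
    linarith
  have hlog : Real.exp (2 * φ) = ‖q‖ + 1 / 1000000 := by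
    rw [hφ]
    have : 2 * (1 / 2 * Real.log (‖q‖ + 1 / 1000000)) = Real.log (‖q‖ + 1 / 1000000) := by ring
    rw [this, Real.exp_log hpos]
  have h1 : Real.exp B.re ^ 2 ≤ (‖q‖ + 1 / 1000000) * (1 + 4 / 100000) := by
    rw [← Real.exp_nat_mul]
    have : Real.exp ((2 : ℕ) * B.re) ≤ Real.exp (2 * φ + 2 / 100000) := by
      apply Real.exp_le_exp.mpr
      push_cast
      linarith
    refine this.trans ?_
    rw [Real.exp_add, hlog]
    exact mul_le_mul_of_nonneg_left he hpos.le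
  have h2 : Real.exp (-B.re) ^ 2 * (‖q‖ + 1 / 1000000) ≤ 1 + 4 / 100000 := by
    rw [← Real.exp_nat_mul, ← hlog, ← Real.exp_add]
    refine le_trans ?_ he
    apply Real.exp_le_exp.mpr
    push_cast
    linarith
  have h3 : (‖q‖ * Real.exp (-B.re)) ^ 2 ≤ ‖q‖ * (1 + 4 / 100000) := by
    have h4 : ‖q‖ ≤ ‖q‖ + 1 / 1000000 := by linarith
    calc (‖q‖ * Real.exp (-B.re)) ^ 2 = ‖q‖ * (Real.exp (-B.re) ^ 2 * ‖q‖) := by ring
      _ ≤ ‖q‖ * (Real.exp (-B.re) ^ 2 * (‖q‖ + 1 / 1000000)) := by gcongr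
      _ ≤ ‖q‖ * (1 + 4 / 100000) := by gcongr
  nlinarith

theorem noInterp (S P : ℂ → ℂ) (hS : DifferentiableOn ℂ S (Metric.ball 0 1))
    (hP : DifferentiableOn ℂ P (Metric.ball 0 1))
    (hG : ∀ z ∈ Metric.ball (0 : ℂ) 1, ∃ a b : ℂ, ‖a‖ ≤ 1 ∧ ‖b‖ ≤ 1 ∧ S z = a + b ∧ P z = a * b)
    (h0 : S 0 = 0) (h0' : P 0 = 0) (h1 : S (1 / 2) = 3 / 5) (h1' : P (1 / 2) = 0)
    (h2 : S (-(1 / 2)) = -(3 / 5)) (h2' : P (-(1 / 2)) = 0) : False := by
  have hmaps : Set.MapsTo (fun z : ℂ => (10 / 11 : ℂ) * z) (Metric.ball 0 (11 / 10))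
      (Metric.ball 0 1) := by
    intro z hz
    rw [mem_ball_zero_iff] at hz ⊢
    show ‖(10 / 11 : ℂ) * z‖ < 1
    rw [norm_mul]
    have : ‖(10 / 11 : ℂ)‖ = 10 / 11 := by
      rw [show (10 / 11 : ℂ) = ((10 / 11 : ℝ) : ℂ) by push_cast; ring, Complex.norm_real,
        Real.norm_eq_abs, abs_of_pos (by norm_num)]
    rw [this]
    linarith
  have dlin : DifferentiableOn ℂ (fun z : ℂ => (10 / 11 : ℂ) * z) (Metric.ball 0 (11 / 10)) :=
    differentiableOn_id.const_mul _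
  have dS : DifferentiableOn ℂ (fun z : ℂ => S ((10 / 11 : ℂ) * z)) (Metric.ball 0 (11 / 10)) :=
    hS.comp dlin hmaps
  have dP : DifferentiableOn ℂ (fun z : ℂ => P ((10 / 11 : ℂ) * z)) (Metric.ball 0 (11 / 10)) :=
    hP.comp dlin hmaps
  set α : ℂ → ℂ := fun z => 1 / 2 * S ((10 / 11 : ℂ) * z) with hα
  have dα : DifferentiableOn ℂ α (Metric.ball 0 (11 / 10)) := dS.const_mul _
  set q : ℂ → ℂ := fun z => α z ^ 2 - P ((10 / 11 : ℂ) * z) with hq
  have dq : DifferentiableOn ℂ q (Metric.ball 0 (11 / 10)) := (dα.pow 2).sub dP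
  have hφ : ContinuousOn (fun z : ℂ => 1 / 2 * Real.log (‖q z‖ + 1 / 1000000))
      (Metric.sphere 0 1) := by
    have hsub : Metric.sphere (0 : ℂ) 1 ⊆ Metric.ball 0 (11 / 10) :=
      Metric.sphere_subset_closedBall.trans (Metric.closedBall_subset_ball (by norm_num))
    refine continuousOn_const.mul (ContinuousOn.log ?_ ?_)
    · exact ((dq.continuousOn.mono hsub).norm).add continuousOn_const
    · intro z _
      have : 0 < ‖q z‖ + 1 / 1000000 := by positivity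
      exact ne_of_gt this
  obtain ⟨H, dH, hH⟩ := exists_entire _ hφ (1 / 100000) (by norm_num)
  have dHo : DifferentiableOn ℂ H (Metric.ball 0 (11 / 10)) := dH.differentiableOn
  refine core α (fun z => Complex.exp (H z)) (fun z => q z * Complex.exp (-(H z))) dα dHo.cexp
    (dq.mul dHo.neg.cexp) ?_ ?_ ?_ ?_ ?_ ?_ ?_
  · simp only [hα, mul_zero, h0]
  · simp only [hq, hα, mul_zero, h0, h0']
    ring
  · have e : (10 / 11 : ℂ) * ((11 / 20 : ℝ) : ℂ) = 1 / 2 := by push_cast; ring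
    simp only [hα, e, h1]
    norm_num
  · have e : (10 / 11 : ℂ) * ((-(11 / 20) : ℝ) : ℂ) = -(1 / 2) := by push_cast; ring
    simp only [hα, e, h2]
    norm_num
  · have e : (10 / 11 : ℂ) * ((11 / 20 : ℝ) : ℂ) = 1 / 2 := by push_cast; ring
    have hqv : q ((11 / 20 : ℝ) : ℂ) = 9 / 100 := by
      simp only [hq, hα, e, h1, h1']
      norm_num
    show Complex.exp _ * (q _ * Complex.exp (-_)) = _
    rw [hqv, Complex.exp_neg]
    field_simp [Complex.exp_ne_zero]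
  · have e : (10 / 11 : ℂ) * ((-(11 / 20) : ℝ) : ℂ) = -(1 / 2) := by push_cast; ring
    have hqv : q ((-(11 / 20) : ℝ) : ℂ) = 9 / 100 := by
      simp only [hq, hα, e, h2, h2']
      norm_num
    show Complex.exp _ * (q _ * Complex.exp (-_)) = _
    rw [hqv, Complex.exp_neg]
    field_simp [Complex.exp_ne_zero]
  · intro z hz v1 v2
    have hzb : (10 / 11 : ℂ) * z ∈ Metric.ball (0 : ℂ) 1 :=
      hmaps (by rw [mem_ball_zero_iff, hz]; norm_num)
    obtain ⟨a, b, ha, hb, hSab, hPab⟩ := hG _ hzb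
    have hprod : Complex.exp (H z) * (q z * Complex.exp (-(H z))) = q z := by
      rw [Complex.exp_neg]
      field_simp [Complex.exp_ne_zero (H z)]
    have e1 : 2 * α z = a + b := by
      simp only [hα]
      rw [hSab]; ring
    have e2 : α z ^ 2 - q z = a * b := by
      simp only [hq]
      rw [← hPab]; ring
    have hq1 : ‖q z‖ ≤ 1 := by
      have := sumsq (α z) a b (q z) e1 e2
      nlinarith [norm_nonneg a, norm_nonneg b, sq_nonneg ‖α z‖]
    refine contr (α z) (Complex.exp (H z)) (q z * Complex.exp (-(H z))) a b e1 ?_ ha hb ?_ v1 v2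
    · rw [hprod]; exact e2
    · exact bc_bound (q z) (H z) _ hq1 rfl (hH z hz)

end Pool.Agent.H93R3.Gam
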