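import Mathlib

set_option autoImplicit false

open Complex

namespace Pool.Agent.H93R3.Gam

lemma sumsq (α z w q : ℂ) (h1 : 2 * α = z + w) (h2 : α ^ 2 - q = z * w) :
    2 * ‖α‖ ^ 2 + 2 * ‖q‖ = ‖z‖ ^ 2 + ‖w‖ ^ 2 := by
  have hα : α = (z + w) / 2 := by linear_combination h1 / 2
  have hq : q = ((z - w) / 2) ^ 2 := by
    rw [hα] at h2
    linear_combination -h2
  rw [hq, hα, norm_pow]
  rw [Complex.sq_norm, Complex.sq_norm, Complex.sq_norm, Complex.sq_norm]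
  simp only [Complex.normSq_apply, Complex.add_re, Complex.add_im, Complex.sub_re, Complex.sub_im,
    Complex.div_ofNat_re, Complex.div_ofNat_im]
  ring

lemma det_id (α b c : ℂ) : (‖α‖ ^ 2 + ‖b‖ ^ 2) * (‖α‖ ^ 2 + ‖c‖ ^ 2) -
    ‖(starRingEnd ℂ) α * c + (starRingEnd ℂ) b * α‖ ^ 2 = ‖α ^ 2 - b * c‖ ^ 2 := by
  rw [pow_two α]
  simp only [Complex.sq_norm, Complex.normSq_apply, Complex.add_re, Complex.add_im, Complex.sub_re,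
    Complex.sub_im, Complex.mul_re, Complex.mul_im, Complex.conj_re, Complex.conj_im]
  ring

lemma form_id (α b c v1 v2 : ℂ) : ‖α * v1 + c * v2‖ ^ 2 + ‖b * v1 + α * v2‖ ^ 2 =
    (‖α‖ ^ 2 + ‖b‖ ^ 2) * ‖v1‖ ^ 2 + (‖α‖ ^ 2 + ‖c‖ ^ 2) * ‖v2‖ ^ 2 +
      2 * ((starRingEnd ℂ) v1 * v2 * ((starRingEnd ℂ) α * c + (starRingEnd ℂ) b * α)).re := by
  simp only [Complex.sq_norm, Complex.normSq_apply, Complex.add_re, Complex.add_im,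
    Complex.mul_re, Complex.mul_im, Complex.conj_re, Complex.conj_im]
  ring

/-- the pointwise bound -/
theorem contr (α b c z w : ℂ) (h1 : 2 * α = z + w) (h2 : α ^ 2 - b * c = z * w)
    (hz : ‖z‖ ≤ 1) (hw : ‖w‖ ≤ 1) (hbc : ‖b‖ ^ 2 + ‖c‖ ^ 2 ≤ 2 * ‖b * c‖ + 9 / 100000)
    (v1 v2 : ℂ) : ‖α * v1 + c * v2‖ ^ 2 + ‖b * v1 + α * v2‖ ^ 2 ≤
      101 / 100 * (‖v1‖ ^ 2 + ‖v2‖ ^ 2) := by
  have e1 := sumsq α z w (b * c) h1 h2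
  have e2 := det_id α b c
  have e3 : ‖α ^ 2 - b * c‖ ^ 2 = ‖z‖ ^ 2 * ‖w‖ ^ 2 := by rw [h2, norm_mul, mul_pow]
  rw [form_id]
  set Z := (starRingEnd ℂ) α * c + (starRingEnd ℂ) b * α with hZ
  set X : ℝ := 101 / 100 - ‖α‖ ^ 2 - ‖b‖ ^ 2 with hX
  set Y : ℝ := 101 / 100 - ‖α‖ ^ 2 - ‖c‖ ^ 2 with hY
  have hz2 : ‖z‖ ^ 2 ≤ 1 := by nlinarith [norm_nonneg z]
  have hw2 : ‖w‖ ^ 2 ≤ 1 := by nlinarith [norm_nonneg w]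
  have hz0 : 0 ≤ ‖z‖ ^ 2 := by positivity
  have hw0 : 0 ≤ ‖w‖ ^ 2 := by positivity
  have hsum : 0 < X + Y := by
    rw [hX, hY]
    linarith
  have hprod : ‖Z‖ ^ 2 < X * Y := by
    have h3 : X * Y - ‖Z‖ ^ 2 = (101 / 100) ^ 2 - 101 / 100 * (2 * ‖α‖ ^ 2 + ‖b‖ ^ 2 + ‖c‖ ^ 2) +
        ‖z‖ ^ 2 * ‖w‖ ^ 2 := by
      rw [← e3, ← e2, hX, hY]
      ring
    have h4 : 0 ≤ (1 - ‖z‖ ^ 2) * (1 - ‖w‖ ^ 2) := mul_nonneg (by linarith) (by linarith)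
    nlinarith
  have hXY : 0 < X * Y := lt_of_le_of_lt (by positivity) hprod
  have hXp : 0 < X := by
    by_contra hcon
    push Not at hcon
    have : Y < 0 ∨ 0 ≤ Y := lt_or_ge _ _
    rcases this with h | h
    · linarith
    · nlinarith
  have hre : ((starRingEnd ℂ) v1 * v2 * Z).re ≤ ‖v1‖ * ‖v2‖ * ‖Z‖ := by
    refine (Complex.re_le_norm _).trans (le_of_eq ?_)
    rw [norm_mul, norm_mul, Complex.norm_conj]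
  have hfin : 0 ≤ X * ‖v1‖ ^ 2 + Y * ‖v2‖ ^ 2 - 2 * (‖v1‖ * ‖v2‖ * ‖Z‖) := by
    have h5 : 0 ≤ X * (X * ‖v1‖ ^ 2 + Y * ‖v2‖ ^ 2 - 2 * (‖v1‖ * ‖v2‖ * ‖Z‖)) := by
      have h6 : ‖Z‖ ^ 2 * ‖v2‖ ^ 2 ≤ X * Y * ‖v2‖ ^ 2 :=
        mul_le_mul_of_nonneg_right hprod.le (by positivity)
      nlinarith [sq_nonneg (X * ‖v1‖ - ‖Z‖ * ‖v2‖)]
    exact nonneg_of_mul_nonneg_right h5 hXp
  have h7 : X * ‖v1‖ ^ 2 + Y * ‖v2‖ ^ 2 = 101 / 100 * (‖v1‖ ^ 2 + ‖v2‖ ^ 2) -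
      ((‖α‖ ^ 2 + ‖b‖ ^ 2) * ‖v1‖ ^ 2 + (‖α‖ ^ 2 + ‖c‖ ^ 2) * ‖v2‖ ^ 2) := by
    rw [hX, hY]; ring
  linarith

end Pool.Agent.H93R3.Gam
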