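import Mathlib

set_option autoImplicit false

open Complex

namespace Pool.Agent.H93R3.Gam

lemma norm_le_of_sq {a b : ℂ} (c : ℝ) (hc : 0 ≤ c) (h : ‖a‖ ^ 2 ≤ c ^ 2 * ‖b‖ ^ 2) :
    ‖a‖ ≤ c * ‖b‖ := by
  have h1 : ‖a‖ ^ 2 ≤ (c * ‖b‖) ^ 2 := by rw [mul_pow]; exact h
  exact (sq_le_sq₀ (norm_nonneg _) (by positivity)).mp h1

lemma normSq_le_one {x : ℂ} (hx : ‖x‖ ≤ 1) : x.re * x.re + x.im * x.im ≤ 1 := by
  have h := Complex.sq_norm x
  rw [Complex.normSq_apply] at h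
  rw [← h]
  nlinarith [norm_nonneg x]

/-- the normalised value -/
noncomputable def Aval (u : ℝ) (x : ℂ) : ℂ := (42 * u - 50 + 15 * x) / (70 - 21 * x - 30 * u)

lemma den_ne (u : ℝ) (x : ℂ) (hu1 : u ≤ 101 / 100) (hx : ‖x‖ ≤ 1) :
    (70 - 21 * x - 30 * u : ℂ) ≠ 0 := by
  intro h
  have h1 := congrArg Complex.re h
  simp only [Complex.sub_re, Complex.mul_re, Complex.re_ofNat, Complex.im_ofNat,
    Complex.ofReal_re, Complex.ofReal_im, Complex.zero_re] at h1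
  have h2 := (abs_le.mp ((Complex.abs_re_le_norm x).trans hx)).2
  linarith

lemma Aval_le (u : ℝ) (x : ℂ) (hu0 : 1 ≤ u) (hu1 : u ≤ 101 / 100) (hx : ‖x‖ ≤ 1) :
    ‖Aval u x‖ ≤ 2 / 5 := by
  rw [Aval, norm_div, div_le_iff₀ (norm_pos_iff.mpr (den_ne u x hu1 hx))]
  apply norm_le_of_sq _ (by norm_num)
  rw [Complex.sq_norm, Complex.sq_norm, Complex.normSq_apply, Complex.normSq_apply]
  simp only [Complex.sub_re, Complex.sub_im, Complex.add_re, Complex.add_im, Complex.mul_re,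
    Complex.mul_im, Complex.re_ofNat, Complex.im_ofNat, Complex.ofReal_re, Complex.ofReal_im]
  have h1 := normSq_le_one hx
  have h2 := (abs_le.mp ((Complex.abs_re_le_norm x).trans hx)).2
  nlinarith [mul_nonneg (sub_nonneg.mpr hu0) (sub_nonneg.mpr h2),
    mul_nonneg (sub_nonneg.mpr hu0) (sub_nonneg.mpr hu1)]

/-- interpolation at two points by a Schur function -/
theorem schur2 (u v : ℝ) (x y : ℂ) (hu0 : 1 ≤ u) (hu1 : u ≤ 101 / 100) (hv0 : 1 ≤ v)
    (hv1 : v ≤ 101 / 100) (hx : ‖x‖ ≤ 1) (hy : ‖y‖ ≤ 1) :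
    ∃ k : ℂ → ℂ, DifferentiableOn ℂ k (Metric.ball 0 1) ∧ (∀ z ∈ Metric.ball (0 : ℂ) 1, ‖k z‖ ≤ 1) ∧
      k (1 / 2) = 6 * u / (10 - 3 * x) ∧ k (-(1 / 2)) = 6 * v / (10 - 3 * y) := by
  obtain ⟨A, hA⟩ : ∃ A : ℂ, Aval u x = A := ⟨_, rfl⟩
  obtain ⟨A', hA'⟩ : ∃ A' : ℂ, Aval v y = A' := ⟨_, rfl⟩
  have nA : ‖A‖ ≤ 2 / 5 := hA ▸ Aval_le u x hu0 hu1 hx
  have nA' : ‖A'‖ ≤ 2 / 5 := hA' ▸ Aval_le v y hv0 hv1 hy
  set kt : ℂ → ℂ := fun z => (A + A') / 2 + (A - A') * z with hkt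
  have dkt : Differentiable ℂ kt :=
    (differentiable_const _).add (differentiable_id.const_mul _)
  have nkt : ∀ z ∈ Metric.ball (0 : ℂ) 1, ‖kt z‖ < 1 := by
    intro z hz
    have hz1 : ‖z‖ < 1 := by simpa using hz
    have h1 : ‖kt z‖ ≤ ‖A + A'‖ / 2 + ‖A - A'‖ := by
      refine (norm_add_le _ _).trans ?_
      rw [norm_div, norm_mul]
      have : ‖A - A'‖ * ‖z‖ ≤ ‖A - A'‖ := by
        nlinarith [norm_nonneg (A - A')]
      have h2 : ‖(2 : ℂ)‖ = 2 := by simp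
      rw [h2]
      linarith
    have hpar := parallelogram_law_with_norm ℝ A A'
    have p0 := norm_nonneg (A + A')
    have m0 := norm_nonneg (A - A')
    have a0 := norm_nonneg A
    have a0' := norm_nonneg A'
    have hs : ‖A + A'‖ ^ 2 + ‖A - A'‖ ^ 2 ≤ 16 / 25 := by nlinarith
    have h3 : (‖A + A'‖ / 2 + ‖A - A'‖) ^ 2 ≤ 4 / 5 := by
      nlinarith [sq_nonneg (‖A + A'‖ - ‖A - A'‖ / 2)]
    nlinarith
  have hne : ∀ z ∈ Metric.ball (0 : ℂ) 1, 7 + 5 * kt z ≠ 0 := by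
    intro z hz h
    have h1 : (5 : ℂ) * kt z = -7 := by linear_combination h
    have h2 : ‖(5 : ℂ) * kt z‖ = 7 := by rw [h1]; simp
    rw [norm_mul] at h2
    have h3 : ‖(5 : ℂ)‖ = 5 := by simp
    rw [h3] at h2
    have := nkt z hz
    linarith
  refine ⟨fun z => (7 * kt z + 5) / (7 + 5 * kt z), ?_, ?_, ?_, ?_⟩
  · exact ((dkt.differentiableOn.const_mul _).add (differentiableOn_const _)).div
      ((differentiableOn_const _).add (dkt.differentiableOn.const_mul _)) hne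
  · intro z hz
    show ‖(7 * kt z + 5) / (7 + 5 * kt z)‖ ≤ 1
    rw [norm_div, div_le_iff₀ (norm_pos_iff.mpr (hne z hz))]
    apply norm_le_of_sq _ (by norm_num)
    have h1 := normSq_le_one (nkt z hz).le
    generalize kt z = w at *
    rw [Complex.sq_norm, Complex.sq_norm, Complex.normSq_apply, Complex.normSq_apply]
    simp only [Complex.add_re, Complex.add_im, Complex.mul_re,
      Complex.mul_im, Complex.re_ofNat, Complex.im_ofNat]
    nlinarith
  · have e : kt (1 / 2) = A := by rw [hkt]; ring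
    show (7 * kt (1 / 2) + 5) / (7 + 5 * kt (1 / 2)) = _
    have hd := hne (1 / 2) (by
      rw [mem_ball_zero_iff]
      norm_num)
    rw [e] at hd ⊢
    have hden := den_ne u x hu1 hx
    have hx3 : (10 - 3 * x : ℂ) ≠ 0 := by
      intro h
      have h1 := congrArg Complex.re h
      simp only [Complex.sub_re, Complex.mul_re, Complex.re_ofNat, Complex.im_ofNat,
        Complex.zero_re] at h1
      have h2 := (abs_le.mp ((Complex.abs_re_le_norm x).trans hx)).2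
      linarith
    rw [div_eq_div_iff hd hx3]
    have hAm : A * (70 - 21 * x - 30 * u) = 42 * u - 50 + 15 * x := by
      rw [← hA, Aval, div_mul_cancel₀ _ hden]
    linear_combination hAm
  · have e : kt (-(1 / 2)) = A' := by rw [hkt]; ring
    show (7 * kt (-(1 / 2)) + 5) / (7 + 5 * kt (-(1 / 2))) = _
    have hd := hne (-(1 / 2)) (by
      rw [mem_ball_zero_iff, norm_neg]
      norm_num)
    rw [e] at hd ⊢
    have hden := den_ne v y hv1 hy
    have hx3 : (10 - 3 * y : ℂ) ≠ 0 := by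
      intro h
      have h1 := congrArg Complex.re h
      simp only [Complex.sub_re, Complex.mul_re, Complex.re_ofNat, Complex.im_ofNat,
        Complex.zero_re] at h1
      have h2 := (abs_le.mp ((Complex.abs_re_le_norm y).trans hy)).2
      linarith
    rw [div_eq_div_iff hd hx3]
    have hAm : A' * (70 - 21 * y - 30 * v) = 42 * v - 50 + 15 * y := by
      rw [← hA', Aval, div_mul_cancel₀ _ hden]
    linear_combination hAm

/-- the extra nodes -/
noncomputable def mu (n j : ℕ) : ℝ := 1 - 1 / (1000 * (n + j))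

lemma mu_bd (n j : ℕ) (hn : 3 ≤ n) : 1 - 1 / (1000 * (n : ℝ)) ≤ mu n j ∧ mu n j < 1 := by
  have hn' : (3 : ℝ) ≤ n := by exact_mod_cast hn
  have hj : (0 : ℝ) ≤ j := Nat.cast_nonneg j
  unfold mu
  constructor
  · have : 1 / (1000 * ((n : ℝ) + j)) ≤ 1 / (1000 * (n : ℝ)) := by
      apply one_div_le_one_div_of_le (by positivity)
      nlinarith
    linarith
  · have : 0 < 1 / (1000 * ((n : ℝ) + j)) := by positivity
    linarith

lemma mu_pos (n j : ℕ) (hn : 3 ≤ n) : 99 / 100 ≤ mu n j := by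
  have hn' : (3 : ℝ) ≤ n := by exact_mod_cast hn
  refine le_trans ?_ (mu_bd n j hn).1
  have : 1 / (1000 * (n : ℝ)) ≤ 1 / 3000 := by
    apply one_div_le_one_div_of_le (by norm_num)
    nlinarith
  linarith

lemma factor_ne (μ : ℝ) (h0 : 0 ≤ μ) (h1 : μ < 1) (z : ℂ) (hz : ‖z‖ < 1) :
    (1 - (μ : ℂ) * z) ≠ 0 := by
  intro h
  have h2 : (μ : ℂ) * z = 1 := by linear_combination -h
  have h3 : ‖(μ : ℂ) * z‖ = 1 := by rw [h2]; simp
  rw [norm_mul, Complex.norm_real, Real.norm_eq_abs, abs_of_nonneg h0] at h3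
  have : μ * ‖z‖ ≤ μ * 1 := mul_le_mul_of_nonneg_left hz.le h0
  linarith

lemma factor_le (μ : ℝ) (h0 : 0 ≤ μ) (h1 : μ < 1) (z : ℂ) (hz : ‖z‖ < 1) :
    ‖((μ : ℂ) - z) / (1 - (μ : ℂ) * z)‖ ≤ 1 := by
  rw [norm_div, div_le_iff₀ (norm_pos_iff.mpr (factor_ne μ h0 h1 z hz))]
  apply norm_le_of_sq _ (by norm_num)
  have hzz := normSq_le_one hz.le
  rw [Complex.sq_norm, Complex.sq_norm, Complex.normSq_apply, Complex.normSq_apply]
  simp only [Complex.sub_re, Complex.sub_im, Complex.mul_re, Complex.one_re, Complex.one_im,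
    Complex.mul_im, Complex.ofReal_re, Complex.ofReal_im]
  nlinarith [mul_nonneg (show 0 ≤ 1 - μ ^ 2 by nlinarith)
    (show 0 ≤ 1 - (z.re * z.re + z.im * z.im) by linarith)]

/-- product with zeros at the extra nodes -/
noncomputable def BB (n : ℕ) (z : ℂ) : ℂ :=
  ∏ j : Fin n, ((mu n j : ℂ) - z) / (1 - (mu n j : ℂ) * z)

lemma BB_diff (n : ℕ) (hn : 3 ≤ n) : DifferentiableOn ℂ (BB n) (Metric.ball 0 1) := by
  have : DifferentiableOn ℂ (fun z : ℂ =>
      ∏ j : Fin n, ((mu n j : ℂ) - z) / (1 - (mu n j : ℂ) * z)) (Metric.ball 0 1) := by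
    refine DifferentiableOn.fun_finsetProd ?_
    intro j _
    refine DifferentiableOn.div ((differentiableOn_const _).sub differentiableOn_id)
      ((differentiableOn_const _).sub (differentiableOn_id.const_mul _)) ?_
    intro z hz
    exact factor_ne _ (by linarith [mu_pos n j hn]) (mu_bd n j hn).2 z (by simpa using hz)
  exact this

lemma BB_le (n : ℕ) (hn : 3 ≤ n) (z : ℂ) (hz : ‖z‖ < 1) : ‖BB n z‖ ≤ 1 := by
  unfold BB
  rw [norm_prod]
  refine Finset.prod_le_one (fun j _ => norm_nonneg _) ?_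
  intro j _
  exact factor_le _ (by linarith [mu_pos n j hn]) (mu_bd n j hn).2 z hz

lemma BB_zero (n : ℕ) (j : Fin n) : BB n (mu n j : ℂ) = 0 := by
  unfold BB
  refine Finset.prod_eq_zero (Finset.mem_univ j) ?_
  simp

/-- real values at a real point -/
lemma BB_real (n : ℕ) (hn : 3 ≤ n) (t : ℝ) (ht : t = 1 / 2 ∨ t = -(1 / 2)) :
    ∃ u : ℝ, 1 ≤ u ∧ u ≤ 101 / 100 ∧ BB n (t : ℂ) * (u : ℂ) = 1 := by
  have hn' : (3 : ℝ) ≤ n := by exact_mod_cast hn
  set R : ℝ := ∏ j : Fin n, (mu n j - t) / (1 - mu n j * t) with hR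
  have hBR : BB n (t : ℂ) = (R : ℂ) := by
    unfold BB
    rw [hR]
    push_cast
    rfl
  have hfac : ∀ j : Fin n, 1 - 3 / (1000 * (n : ℝ)) ≤ (mu n j - t) / (1 - mu n j * t) ∧
      (mu n j - t) / (1 - mu n j * t) ≤ 1 := by
    intro j
    have h1 := mu_bd n j hn
    have h2 := mu_pos n j hn
    have hden : 0 < 1 - mu n j * t := by
      rcases ht with h | h <;> rw [h] <;> nlinarith
    obtain ⟨e, he⟩ : ∃ e : ℝ, 1 / (1000 * (n : ℝ)) = e := ⟨_, rfl⟩
    have he0 : 0 < e := by rw [← he]; positivity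
    have he3 : 3 / (1000 * (n : ℝ)) = 3 * e := by rw [← he]; ring
    rw [he] at h1
    rw [he3]
    constructor
    · rw [le_div_iff₀ hden]
      rcases ht with h | h <;> rw [h] <;> nlinarith
    · rw [div_le_iff₀ hden]
      rcases ht with h | h <;> rw [h] <;> nlinarith
  have hc0 : 0 ≤ 1 - 3 / (1000 * (n : ℝ)) := by
    have : 3 / (1000 * (n : ℝ)) ≤ 3 / 3000 := by
      apply div_le_div_of_nonneg_left (by norm_num) (by norm_num)
      nlinarith
    linarith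
  have hRle : R ≤ 1 := by
    rw [hR]
    exact Finset.prod_le_one (fun j _ => hc0.trans (hfac j).1) (fun j _ => (hfac j).2)
  have hRge : 997 / 1000 ≤ R := by
    have h1 : (1 - 3 / (1000 * (n : ℝ))) ^ n ≤ R := by
      have : ∏ _j : Fin n, (1 - 3 / (1000 * (n : ℝ))) ≤ R := by
        rw [hR]
        exact Finset.prod_le_prod (fun j _ => hc0) (fun j _ => (hfac j).1)
      rw [Finset.prod_const, Finset.card_univ, Fintype.card_fin] at this
      exact this
    have h2 := one_add_mul_le_pow (a := -(3 / (1000 * (n : ℝ)))) (by linarith) n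
    have h3 : 1 + (n : ℝ) * -(3 / (1000 * (n : ℝ))) = 997 / 1000 := by
      field_simp
      norm_num
    rw [h3] at h2
    refine h2.trans (le_trans (le_of_eq ?_) h1)
    ring
  have hRpos : 0 < R := by linarith
  refine ⟨1 / R, ?_, ?_, ?_⟩
  · rw [le_div_iff₀ hRpos]; linarith
  · rw [div_le_iff₀ hRpos]; nlinarith
  · rw [hBR]
    push_cast
    have : (R : ℂ) ≠ 0 := by exact_mod_cast ne_of_gt hRpos
    field_simp

/-- the interpolant -/
theorem interp (n : ℕ) (hn : 3 ≤ n) (x y : ℂ) (hx : ‖x‖ ≤ 1) (hy : ‖y‖ ≤ 1) :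
    ∃ g : ℂ → ℂ, DifferentiableOn ℂ g (Metric.ball 0 1) ∧ (∀ z ∈ Metric.ball (0 : ℂ) 1, ‖g z‖ ≤ 1) ∧
      g 0 = 0 ∧ (∀ j : Fin n, g (mu n j : ℂ) = 0) ∧ g (1 / 2) = -3 / (10 - 3 * x) ∧
      g (-(1 / 2)) = 3 / (10 - 3 * y) := by
  obtain ⟨u, hu0, hu1, hu⟩ := BB_real n hn (1 / 2) (Or.inl rfl)
  obtain ⟨v, hv0, hv1, hv⟩ := BB_real n hn (-(1 / 2)) (Or.inr rfl)
  obtain ⟨k, dk, nk, kp, km⟩ := schur2 u v x y hu0 hu1 hv0 hv1 hx hy
  refine ⟨fun z => -z * BB n z * k z, ?_, ?_, ?_, ?_, ?_, ?_⟩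
  · exact (differentiableOn_id.neg.mul (BB_diff n hn)).mul dk
  · intro z hz
    have hz1 : ‖z‖ < 1 := by simpa using hz
    show ‖-z * BB n z * k z‖ ≤ 1
    rw [norm_mul, norm_mul, norm_neg]
    have h1 := BB_le n hn z hz1
    have h2 := nk z hz
    have h3 : ‖z‖ * ‖BB n z‖ ≤ 1 := mul_le_one₀ hz1.le (norm_nonneg _) h1
    exact mul_le_one₀ h3 (norm_nonneg _) h2
  · simp
  · intro j
    show -(mu n j : ℂ) * BB n (mu n j : ℂ) * k (mu n j : ℂ) = 0
    rw [BB_zero]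
    ring
  · show -(1 / 2) * BB n (1 / 2) * k (1 / 2) = _
    rw [kp]
    push_cast at hu
    linear_combination (-3 / (10 - 3 * x)) * hu
  · show -(-(1 / 2)) * BB n (-(1 / 2)) * k (-(1 / 2)) = _
    rw [km]
    push_cast at hv
    linear_combination (3 / (10 - 3 * y)) * hv

end Pool.Agent.H93R3.Gam
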