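import Pool.Agent.H93R3.GamM
import Pool.Agent.H93R3.GamA

set_option autoImplicit false

open Complex MeasureTheory

namespace Pool.Agent.H93R3.Gam

lemma circ_norm (θ : ℝ) : ‖circleMap 0 1 θ‖ = 1 := by simp [circleMap]

lemma circ_cont (u : ℂ → ℂ) (hu : DifferentiableOn ℂ u (Metric.ball 0 (11 / 10))) :
    Continuous fun θ : ℝ => u (circleMap 0 1 θ) := by
  refine hu.continuousOn.comp_continuous (continuous_circleMap 0 1) ?_
  intro θ
  rw [mem_ball_zero_iff, circ_norm]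
  norm_num

lemma cauchy1 (u : ℂ → ℂ) (hu : DifferentiableOn ℂ u (Metric.ball 0 (11 / 10))) (w : ℂ)
    (hw : ‖w‖ < 1) :
    ∫ θ in (0:ℝ)..2 * Real.pi, u (circleMap 0 1 θ) *
      (circleMap 0 1 θ / (circleMap 0 1 θ - w)) = 2 * Real.pi * u w := by
  have hsub : Metric.closedBall (0 : ℂ) 1 ⊆ Metric.ball 0 (11 / 10) :=
    Metric.closedBall_subset_ball (by norm_num)
  have h := (hu.mono hsub).circleIntegral_sub_inv_smul (w := w) (by simpa using hw)
  rw [circleIntegral] at h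
  have hcongr : (∫ θ in (0:ℝ)..2 * Real.pi, deriv (circleMap 0 1) θ •
      ((circleMap 0 1 θ - w)⁻¹ • u (circleMap 0 1 θ))) =
      ∫ θ in (0:ℝ)..2 * Real.pi, I * (u (circleMap 0 1 θ) *
      (circleMap 0 1 θ / (circleMap 0 1 θ - w))) := by
    congr 1
    funext θ
    rw [deriv_circleMap, smul_eq_mul, smul_eq_mul]
    ring
  rw [hcongr, intervalIntegral.integral_const_mul, smul_eq_mul] at h
  have h2 : I * (∫ θ in (0:ℝ)..2 * Real.pi, u (circleMap 0 1 θ) *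
      (circleMap 0 1 θ / (circleMap 0 1 θ - w))) = I * (2 * Real.pi * u w) := by
    rw [h]; ring
  exact mul_left_cancel₀ Complex.I_ne_zero h2

lemma circ_sub_ne (θ : ℝ) (w : ℂ) (hw : ‖w‖ < 1) : circleMap 0 1 θ - w ≠ 0 := by
  intro h
  have h1 : circleMap 0 1 θ = w := sub_eq_zero.mp h
  have h2 := circ_norm θ
  rw [h1] at h2
  linarith

lemma cauchy1_cont (u : ℂ → ℂ) (hu : DifferentiableOn ℂ u (Metric.ball 0 (11 / 10))) (w : ℂ)
    (hw : ‖w‖ < 1) :
    Continuous fun θ : ℝ => u (circleMap 0 1 θ) * (circleMap 0 1 θ / (circleMap 0 1 θ - w)) := by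
  refine (circ_cont u hu).mul ((continuous_circleMap 0 1).div
    ((continuous_circleMap 0 1).sub continuous_const) ?_)
  intro θ
  exact circ_sub_ne θ w hw

/-- positivity of a three term average -/
lemma avg3 (u0 u1 u2 : ℂ → ℂ) (h0 : DifferentiableOn ℂ u0 (Metric.ball 0 (11 / 10)))
    (h1 : DifferentiableOn ℂ u1 (Metric.ball 0 (11 / 10)))
    (h2 : DifferentiableOn ℂ u2 (Metric.ball 0 (11 / 10))) (w0 w1 w2 : ℂ)
    (hw0 : ‖w0‖ < 1) (hw1 : ‖w1‖ < 1) (hw2 : ‖w2‖ < 1)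
    (hpos : ∀ z : ℂ, ‖z‖ = 1 → 0 ≤ (u0 z * (z / (z - w0)) + u1 z * (z / (z - w1)) +
      u2 z * (z / (z - w2))).re) :
    0 ≤ (u0 w0 + u1 w1 + u2 w2).re := by
  have c0 := cauchy1_cont u0 h0 w0 hw0
  have c1 := cauchy1_cont u1 h1 w1 hw1
  have c2 := cauchy1_cont u2 h2 w2 hw2
  have e0 := cauchy1 u0 h0 w0 hw0
  have e1 := cauchy1 u1 h1 w1 hw1
  have e2 := cauchy1 u2 h2 w2 hw2
  have c01 : Continuous fun θ : ℝ => u0 (circleMap 0 1 θ) *
      (circleMap 0 1 θ / (circleMap 0 1 θ - w0)) + u1 (circleMap 0 1 θ) *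
      (circleMap 0 1 θ / (circleMap 0 1 θ - w1)) := c0.add c1
  have c012 : Continuous fun θ : ℝ => u0 (circleMap 0 1 θ) *
      (circleMap 0 1 θ / (circleMap 0 1 θ - w0)) + u1 (circleMap 0 1 θ) *
      (circleMap 0 1 θ / (circleMap 0 1 θ - w1)) + u2 (circleMap 0 1 θ) *
      (circleMap 0 1 θ / (circleMap 0 1 θ - w2)) := c01.add c2
  have hsum : (∫ θ in (0:ℝ)..2 * Real.pi, (u0 (circleMap 0 1 θ) *
      (circleMap 0 1 θ / (circleMap 0 1 θ - w0)) + u1 (circleMap 0 1 θ) *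
      (circleMap 0 1 θ / (circleMap 0 1 θ - w1)) + u2 (circleMap 0 1 θ) *
      (circleMap 0 1 θ / (circleMap 0 1 θ - w2)))) =
      2 * Real.pi * (u0 w0 + u1 w1 + u2 w2) := by
    rw [intervalIntegral.integral_add (c01.intervalIntegrable _ _)
      (c2.intervalIntegrable _ _),
      intervalIntegral.integral_add (c0.intervalIntegrable _ _) (c1.intervalIntegrable _ _),
      e0, e1, e2]
    ring
  have hre := ContinuousLinearMap.intervalIntegral_comp_comm (a := (0:ℝ)) (b := 2 * Real.pi)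
    (μ := volume) Complex.reCLM (c012.intervalIntegrable _ _)
  rw [hsum] at hre
  simp only [Complex.reCLM_apply] at hre
  have hnn : 0 ≤ ∫ θ in (0:ℝ)..2 * Real.pi, (u0 (circleMap 0 1 θ) *
      (circleMap 0 1 θ / (circleMap 0 1 θ - w0)) + u1 (circleMap 0 1 θ) *
      (circleMap 0 1 θ / (circleMap 0 1 θ - w1)) + u2 (circleMap 0 1 θ) *
      (circleMap 0 1 θ / (circleMap 0 1 θ - w2))).re := by
    refine intervalIntegral.integral_nonneg Real.two_pi_pos.le ?_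
    intro θ _
    exact hpos _ (circ_norm θ)
  have h5 : 0 ≤ ((2 * Real.pi : ℂ) * (u0 w0 + u1 w1 + u2 w2)).re := by
    rw [← hre]
    exact hnn
  have h6 : ((2 * Real.pi : ℂ) * (u0 w0 + u1 w1 + u2 w2)).re =
      (2 * Real.pi) * (u0 w0 + u1 w1 + u2 w2).re := by
    have : (2 * Real.pi : ℂ) = ((2 * Real.pi : ℝ) : ℂ) := by push_cast; ring
    rw [this, Complex.re_ofReal_mul]
  rw [h6] at h5
  exact nonneg_of_mul_nonneg_right h5 Real.two_pi_pos

end Pool.Agent.H93R3.Gam
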